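import Pool.Agent.T2H52.CF.Gal

set_option autoImplicit false

/-! # The final statements -/

namespace Pool.Agent.T2H52.CF

open Finset Filter NumberField Topology

theorem exists_indep {K : Type*} [Field K] [NumberField K] (hK : Module.finrank ℚ K = 3) :
    ∃ α β : 𝓞 K, LinearIndependent ℚ ![(1 : K), (α : K), (β : K)] := by
  have h1 : ∃ θ : 𝓞 K, ∀ q : ℚ, (θ : K) ≠ (q : K) := by
    by_contra hc
    push Not at hc
    have h2 : Module.finrank ℚ K ≤ 1 := by
      apply finrank_le_one (1 : K)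
      intro x
      obtain ⟨a, b, _, hab⟩ := IsFractionRing.div_surjective (A := 𝓞 K) x
      obtain ⟨q, hq⟩ := hc a
      obtain ⟨r, hr⟩ := hc b
      refine ⟨q / r, ?_⟩
      rw [← hab, Rat.smul_def]
      push_cast
      rw [← hq, ← hr]
      simp
    omega
  obtain ⟨θ, hθ⟩ := h1
  refine ⟨θ, θ ^ 2, ?_⟩
  rw [Fintype.linearIndependent_iff]
  intro g hg
  rw [Fin.sum_univ_three] at hg
  simp only [Matrix.cons_val_zero, Matrix.cons_val_one, Matrix.cons_val, Rat.smul_def] at hg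
  by_contra hc
  push Not at hc
  obtain ⟨i, hi⟩ := hc
  obtain ⟨q, hq⟩ := rat_of_quad hK (x := (θ : K)) (a := g 2) (b := g 1) (c := g 0)
    (by push_cast at hg; linear_combination hg) (by
      rintro ⟨h2, h1, h0⟩
      apply hi
      fin_cases i
      · exact h0
      · exact h1
      · exact h2)
  exact hθ q (by rw [← hq]; simp)

theorem dz_union {S T : Set (ℤ × ℤ)} (hS : DZ S) (hT : DZ T) : DZ (S ∪ T) := by
  classical
  intro ε hε
  obtain ⟨A, hA⟩ := hS (ε / 2) (by positivity)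
  obtain ⟨B, hB⟩ := hT (ε / 2) (by positivity)
  refine ⟨max A B, fun H hH => ?_⟩
  have h1 := hA H ((le_max_left _ _).trans hH)
  have h2 := hB H ((le_max_right _ _).trans hH)
  have h3 : ((box H).filter (fun η => η ∈ S ∪ T)) ⊆
      ((box H).filter (fun η => η ∈ S)) ∪ ((box H).filter (fun η => η ∈ T)) := by
    intro η hη
    rw [mem_filter] at hη
    rw [mem_union, mem_filter, mem_filter]
    rcases hη.2 with h | h
    · left; exact ⟨hη.1, h⟩
    · right; exact ⟨hη.1, h⟩
  have h4 : (((box H).filter (fun η => η ∈ S ∪ T)).card : ℝ) ≤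
      (((box H).filter (fun η => η ∈ S)).card : ℝ) + (((box H).filter (fun η => η ∈ T)).card : ℝ) := by
    exact_mod_cast (card_le_card h3).trans (card_union_le _ _)
  have e1 : (((box H).filter (fun η => η ∈ S)).card : ℝ) ≤ ε / 2 * (2 * H + 1) ^ 2 := by
    refine le_trans (le_of_eq ?_) h1
    congr!
  have e2 : (((box H).filter (fun η => η ∈ T)).card : ℝ) ≤ ε / 2 * (2 * H + 1) ^ 2 := by
    refine le_trans (le_of_eq ?_) h2
    congr!
  refine le_trans (le_of_eq ?_) (h4.trans (by linarith))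
  congr!

theorem tendsto_of_dz {S : Set (ℤ × ℤ)} (h : DZ S) :
    Tendsto (fun N : ℕ => ({v : ℤ × ℤ | |v.1| ≤ N ∧ |v.2| ≤ N ∧ v ∈ S}.ncard : ℝ) /
      (2 * N + 1) ^ 2) atTop (𝓝 0) := by
  classical
  rw [Metric.tendsto_atTop]
  intro ε hε
  obtain ⟨H₀, hH₀⟩ := h (ε / 2) (by positivity)
  refine ⟨H₀, fun N hN => ?_⟩
  have h1 := hH₀ N hN
  have h2 : {v : ℤ × ℤ | |v.1| ≤ N ∧ |v.2| ≤ N ∧ v ∈ S} = ((box N).filter (fun η => η ∈ S) : Finset (ℤ × ℤ)) := by
    ext v
    simp only [Set.mem_ofPred_eq, coe_filter, box, mem_product, mem_Icc, abs_le, and_assoc]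
  have h3 : ({v : ℤ × ℤ | |v.1| ≤ N ∧ |v.2| ≤ N ∧ v ∈ S}.ncard : ℝ) ≤ ε / 2 * (2 * N + 1) ^ 2 := by
    rw [h2, Set.ncard_coe_finset]
    refine le_trans (le_of_eq ?_) h1
    congr!
  have hpos : (0 : ℝ) < (2 * N + 1) ^ 2 := by positivity
  rw [Real.dist_eq, sub_zero, abs_of_nonneg (by positivity)]
  have h4 : ({v : ℤ × ℤ | |v.1| ≤ N ∧ |v.2| ≤ N ∧ v ∈ S}.ncard : ℝ) / (2 * N + 1) ^ 2 ≤ ε / 2 := by
    rw [div_le_iff₀ hpos]
    exact h3
  linarith

theorem many_iff (A : Set ℕ) : Many A ↔ ∃ c : ℝ, 0 < c ∧ ∃ᶠ X : ℕ in atTop,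
    c * √X ≤ ({n : ℕ | n ∈ A ∧ 1 ≤ n ∧ n ≤ X}.ncard : ℝ) := by
  classical
  have h : ∀ X : ℕ, ({n : ℕ | n ∈ A ∧ 1 ≤ n ∧ n ≤ X}.ncard : ℝ) =
      (((Icc 1 X).filter (fun n => n ∈ A)).card : ℝ) := by
    intro X
    have : {n : ℕ | n ∈ A ∧ 1 ≤ n ∧ n ≤ X} = ((Icc 1 X).filter (fun n => n ∈ A) : Finset ℕ) := by
      ext n
      simp only [Set.mem_ofPred_eq, coe_filter, mem_Icc]
      tauto
    rw [this, Set.ncard_coe_finset]
  unfold Many
  constructor
  · rintro ⟨c, hc, h'⟩
    refine ⟨c, hc, h'.mono (fun X hX => ?_)⟩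
    rw [h]
    refine hX.trans (le_of_eq ?_)
    congr!
  · rintro ⟨c, hc, h'⟩
    refine ⟨c, hc, h'.mono (fun X hX => ?_)⟩
    rw [h] at hX
    refine hX.trans (le_of_eq ?_)
    congr!

theorem inf_mul {R : Type*} [CommRing R] [CharZero R] {H : R → ℤ} (hH : MulH H) {θ : R}
    (hθ : Irr θ) {k : ℕ} (hk : 0 < k)
    (h1 : {n : ℕ | H ((n : R) - θ) = 1}.Infinite) (h2 : {n : ℕ | H ((n : R) - θ) = -1}.Infinite)
    (c : ℤ) (hc : c = 1 ∨ c = -1) : {n : ℕ | H ((n : R) - (k : R) * θ) = c}.Infinite := by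
  have hk0 : (k : R) ≠ 0 := Nat.cast_ne_zero.2 hk.ne'
  have hval : ∀ n : ℕ, H (((k * n : ℕ) : R) - (k : R) * θ) = H (k : R) * H ((n : R) - θ) := by
    intro n
    have e : ((k * n : ℕ) : R) - (k : R) * θ = (k : R) * ((n : R) - θ) := by push_cast; ring
    have := hθ.ne (n : ℤ)
    rw [Int.cast_natCast] at this
    rw [e, hH.mul _ _ hk0 this]
  have himg : ∀ S : Set ℕ, S.Infinite → ((fun n => k * n) '' S).Infinite := by
    intro S hS
    exact hS.image (fun a _ b _ h => Nat.eq_of_mul_eq_mul_left hk h)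
  rcases hH.pm _ hk0 with hk1 | hk1 <;> rcases hc with rfl | rfl
  · refine (himg _ h1).mono ?_
    rintro _ ⟨n, hn, rfl⟩
    change H _ = _
    rw [hval, hk1, hn]; norm_num
  · refine (himg _ h2).mono ?_
    rintro _ ⟨n, hn, rfl⟩
    change H _ = _
    rw [hval, hk1, hn]; norm_num
  · refine (himg _ h2).mono ?_
    rintro _ ⟨n, hn, rfl⟩
    change H _ = _
    rw [hval, hk1, hn]; norm_num
  · refine (himg _ h1).mono ?_
    rintro _ ⟨n, hn, rfl⟩
    change H _ = _
    rw [hval, hk1, hn]; norm_num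

/-- both directions at once -/
theorem part_b' {R : Type*} [CommRing R] [CharZero R] {H : R → ℤ} (hH : MulH H) {α β : R}
    (hC : Cub α β) (hz : MZ (hN H)) (hcyc : Cyc H α β) :
    DZ {v | ¬ ∃ e : ℕ, 0 < e ∧ ∀ s c : ℤ, (s = 1 ∨ s = -1) → (c = 1 ∨ c = -1) →
      {n : ℕ | H ((n : R) - (s : R) * ((e : R) * vv α β v)) = c}.Infinite} := by
  refine (dz_insert (dz_abs hH hC hz) 0).mono ?_
  intro v hv
  by_cases h0 : v = 0
  · left; exact h0
  · right
    have hi := hC.irr v h0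
    have key : ∀ w : ℤ × ℤ, w ≠ 0 → SB0 H (vv α β w) → SB0 H (-vv α β w) := by
      intro w hw h1
      obtain ⟨ξ', hξ', k, D, hk, hD, b, s, hr⟩ := hcyc w hw
      exact cyc_neg hH (hC.irr w hw) hξ' hk hD b s hr h1
    have key2 : SB0 H (vv α β v) ∨ SB0 H (-vv α β v) := by
      by_contra hc
      push Not at hc
      have a1 : Inf H (vv α β v) := by
        by_contra h; exact hc.1 (sb0_of_not_inf hH hi h)
      have a2 : Inf H (-vv α β v) := by
        by_contra h; exact hc.2 (sb0_of_not_inf hH hi.neg h)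
      obtain ⟨e, he, p1, p2⟩ := a1
      obtain ⟨f, hf, q1, q2⟩ := a2
      apply hv
      have hie : Irr ((e : R) * vv α β v) := by
        intro n g hg
        have := hi n (g * e) (mul_ne_zero hg (by exact_mod_cast he.ne'))
        intro h0'
        apply this
        rw [← h0']
        push_cast
        ring
      have hif : Irr ((f : R) * -vv α β v) := by
        intro n g hg
        have := hi n (-(g * f)) (neg_ne_zero.2 (mul_ne_zero hg (by exact_mod_cast hf.ne')))
        intro h0'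
        apply this
        rw [← h0']
        push_cast
        ring
      refine ⟨f * e, Nat.mul_pos hf he, ?_⟩
      intro s c hs hc'
      rcases hs with rfl | rfl
      · have := inf_mul hH hie hf p1 p2 c hc'
        refine this.mono ?_
        intro n hn
        change H _ = _ at hn ⊢
        rw [← hn]
        congr 1
        push_cast
        ring
      · have := inf_mul hH hif he q1 q2 c hc'
        refine this.mono ?_
        intro n hn
        change H _ = _ at hn ⊢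
        rw [← hn]
        congr 1
        push_cast
        ring
    rcases key2 with h1 | h1
    · exact ⟨h0, h1.sb, (key v h0 h1).sb⟩
    · have h2 := key (-v) (neg_ne_zero.2 h0) (by rw [vv_neg]; exact h1)
      rw [vv_neg, neg_neg] at h2
      exact ⟨h0, h2.sb, h1.sb⟩

end Pool.Agent.T2H52.CF
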