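import Pool.Agent.T2H52.CF.Alg

set_option autoImplicit false

/-! # Consequences: both signs for many lines -/

namespace Pool.Agent.T2H52.CF

open Finset Filter

open Classical in
/-- at least `c √X` elements up to `X`, for some `c > 0` and arbitrarily large `X` -/
def Many (A : Set ℕ) : Prop := ∃ c : ℝ, 0 < c ∧ ∃ᶠ X : ℕ in atTop,
  c * √X ≤ (((Icc 1 X).filter (fun n => n ∈ A)).card : ℝ)

theorem thin_of_not_many {A : Set ℕ} (h : ¬ Many A) : Thin A := by
  unfold Many at h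
  push Not at h
  intro ε hε
  have h1 := h ε hε
  obtain ⟨X₀, hX₀⟩ := eventually_atTop.1 h1
  exact ⟨X₀, fun X hX => (hX₀ X hX).le⟩

variable {R : Type*} [CommRing R]

theorem many_of_not_bad {H : R → ℤ} (hH : MulH H) {θ : R} (hθ : Irr θ) (h : ¬ Bad H θ) :
    Many {n : ℕ | H ((n : R) - θ) = 1} ∧ Many {n : ℕ | H ((n : R) - θ) = -1} := by
  have hpm : ∀ n : ℕ, H ((n : R) - θ) = 1 ∨ H ((n : R) - θ) = -1 := by
    intro n
    apply hH.pm
    have := hθ.ne (n : ℤ)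
    rwa [Int.cast_natCast] at this
  constructor
  · by_contra hc
    apply h
    refine ⟨-1, (thin_of_not_many hc).mono ?_⟩
    intro n hn
    exact (hpm n).resolve_right hn
  · by_contra hc
    apply h
    refine ⟨1, (thin_of_not_many hc).mono ?_⟩
    intro n hn
    exact (hpm n).resolve_left hn

/-- `θ` or `-θ` has a multiple for which both signs occur often -/
def Good (H : R → ℤ) (θ : R) : Prop := ∃ e : ℕ, 0 < e ∧
  Many {n : ℕ | H ((n : R) - (e : R) * θ) = 1} ∧ Many {n : ℕ | H ((n : R) - (e : R) * θ) = -1}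

theorem good_of_not_sb [CharZero R] {H : R → ℤ} (hH : MulH H) {θ : R} (hθ : Irr θ)
    (h : ¬ SB H θ) : Good H θ := by
  unfold SB at h
  push Not at h
  obtain ⟨e, he, hb⟩ := h
  refine ⟨e, he, many_of_not_bad hH ?_ hb⟩
  intro n f hf
  have := hθ n (f * e) (mul_ne_zero hf (by exact_mod_cast he.ne'))
  intro h0
  apply this
  rw [← h0]
  push_cast
  ring

theorem DZ.mono {S T : Set (ℤ × ℤ)} (hT : DZ T) (h : S ⊆ T) : DZ S := by
  classical
  intro ε hε
  obtain ⟨H₀, hH₀⟩ := hT ε hε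
  refine ⟨H₀, fun H hH => ?_⟩
  have h1 := hH₀ H hH
  have h2 : ((box H).filter (fun η => η ∈ S)).card ≤ ((box H).filter (fun η => η ∈ T)).card := by
    apply card_le_card
    intro η hη
    rw [mem_filter] at hη ⊢
    exact ⟨hη.1, h hη.2⟩
  refine le_trans (le_of_eq ?_) ((Nat.cast_le (α := ℝ).2 h2).trans (le_trans (le_of_eq ?_) h1)) <;> congr!

theorem dz_insert {S : Set (ℤ × ℤ)} (hS : DZ S) (v : ℤ × ℤ) : DZ (insert v S) := by
  classical
  intro ε hε
  obtain ⟨H₀, hH₀⟩ := hS (ε / 2) (by positivity)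
  obtain ⟨K, hK⟩ := exists_nat_gt (2 / ε)
  refine ⟨max H₀ K, fun H hH => ?_⟩
  have h1 := hH₀ H ((le_max_left _ _).trans hH)
  have h2 : ((box H).filter (fun η => η ∈ insert v S)) ⊆
      insert v ((box H).filter (fun η => η ∈ S)) := by
    intro η hη
    rw [mem_filter] at hη
    rw [mem_insert, mem_filter]
    rcases hη.2 with h | h
    · left; exact h
    · right; exact ⟨hη.1, h⟩
  have h3 := (card_le_card h2).trans (card_insert_le _ _)
  have h4 : (((box H).filter (fun η => η ∈ insert v S)).card : ℝ) ≤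
      (((box H).filter (fun η => η ∈ S)).card : ℝ) + 1 := by exact_mod_cast h3
  have h5 : (K : ℝ) ≤ H := by exact_mod_cast (le_max_right _ _).trans hH
  have h6 : 2 < ε * K := by
    rw [div_lt_iff₀ hε] at hK
    linarith
  have h7 : (1 : ℝ) ≤ ε / 2 * (2 * H + 1) ^ 2 := by
    have h8 : ε * K ≤ ε * H := mul_le_mul_of_nonneg_left h5 hε.le
    have h9 : (0 : ℝ) ≤ H := Nat.cast_nonneg H
    nlinarith [mul_nonneg hε.le h9, mul_nonneg (mul_nonneg hε.le h9) h9]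
  refine le_trans (le_of_eq ?_) (h4.trans ?_)
  · congr!
  · have e : (((box H).filter (fun η => η ∈ S)).card : ℝ) ≤ ε / 2 * (2 * H + 1) ^ 2 := by
      refine le_trans (le_of_eq ?_) h1
      congr!
    linarith

/-- part (a) -/
theorem part_a [CharZero R] {H : R → ℤ} (hH : MulH H) {α β : R} (hC : Cub α β)
    (hz : MZ (hN H)) : DZ {v | ¬ (Good H (vv α β v) ∨ Good H (-vv α β v))} := by
  refine (dz_insert (dz_abs hH hC hz) 0).mono ?_
  intro v hv
  by_cases h0 : v = 0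
  · left; exact h0
  · right
    have hi := hC.irr v h0
    simp only [Set.mem_ofPred_eq, not_or] at hv
    refine ⟨h0, ?_, ?_⟩
    · by_contra hc
      exact hv.1 (good_of_not_sb hH hi hc)
    · by_contra hc
      exact hv.2 (good_of_not_sb hH hi.neg hc)

/-- part (c) -/
theorem part_c [CharZero R] {H : R → ℤ} (hH : MulH H) {α β : R} (hC : Cub α β)
    {m : ℕ} (hm : 0 < m) (hHm : H (m : R) = -1) (F : Finset (ℤ × ℤ)) (hF : ∀ f ∈ F, f ≠ 0) :
    ∃ v : ℤ × ℤ, v ≠ 0 ∧ (∀ f ∈ F, dt f v ≠ 0) ∧ Good H (vv α β v) := by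
  classical
  by_contra hcon
  push Not at hcon
  have hall : ∀ v : ℤ × ℤ, v ≠ 0 → (∀ f ∈ F, dt f v ≠ 0) → SB H (vv α β v) := by
    intro v h0 hv
    by_contra hc
    exact hcon v h0 hv (good_of_not_sb hH (hC.irr v h0) hc)
  have hm0 : (m : R) ≠ 0 := Nat.cast_ne_zero.2 hm.ne'
  -- two pivots
  have hone : ∀ f ∈ F, ∃ J : ℕ, ∀ j : ℕ, J ≤ j → dt f (1, (j : ℤ)) ≠ 0 := by
    intro f hf
    refine ⟨f.2.natAbs + 1, fun j hj h0 => ?_⟩
    unfold dt at h0
    simp only [mul_one] at h0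
    by_cases h1 : f.1 = 0
    · rw [h1] at h0
      apply hF f hf
      exact Prod.ext h1 (by simp only [Prod.snd_zero]; linarith)
    · have h2 : f.1 * (j : ℤ) = f.2 := by linarith
      have h3 : f.1.natAbs * j = f.2.natAbs := by
        rw [← h2, Int.natAbs_mul, Int.natAbs_natCast]
      have h4 : 1 ≤ f.1.natAbs := Int.natAbs_pos.2 h1
      nlinarith
  choose! J hJ using hone
  set j₀ := F.sup J with hj₀
  have hoff : ∀ j : ℕ, j₀ ≤ j → ∀ f ∈ F, dt f (1, (j : ℤ)) ≠ 0 := by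
    intro j hj f hf
    exact hJ f hf j ((le_sup (f := J) hf).trans hj)
  have neg_off : ∀ v : ℤ × ℤ, (∀ f ∈ F, dt f v ≠ 0) → ∀ f ∈ F, dt f (-v) ≠ 0 := by
    intro v hv f hf h0
    apply hv f hf
    unfold dt at h0 ⊢
    simp only [Prod.fst_neg, Prod.snd_neg] at h0
    linarith
  have hmem : ∀ v : ℤ × ℤ, v ≠ 0 → (∀ f ∈ F, dt f v ≠ 0) → v ∈ SBS H α β := by
    intro v h0 hv
    refine ⟨h0, hall v h0 hv, ?_⟩
    have := hall (-v) (neg_ne_zero.2 h0) (neg_off v hv)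
    rwa [vv_neg] at this
  set s₁ : ℤ × ℤ := (1, (j₀ : ℤ)) with hs₁
  set s₂ : ℤ × ℤ := (1, ((j₀ + 1 : ℕ) : ℤ)) with hs₂
  have hs₁0 : s₁ ≠ 0 := by intro h; have := congrArg Prod.fst h; simp [hs₁] at this
  have hs₂0 : s₂ ≠ 0 := by intro h; have := congrArg Prod.fst h; simp [hs₂] at this
  have ho₁ := hoff j₀ le_rfl
  have ho₂ := hoff (j₀ + 1) (by omega)
  obtain ⟨t₁, ht₁, c₁, hc₁, h₁⟩ := pivot_vec hH hC (hmem s₁ hs₁0 ho₁)
  obtain ⟨t₂, ht₂, c₂, hc₂, h₂⟩ := pivot_vec hH hC (hmem s₂ hs₂0 ho₂)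
  have hd : dt t₁ t₂ ≠ 0 := by
    have e0 : dt s₁ s₂ = 1 := by unfold dt; simp [hs₁, hs₂]
    have g1 : ∀ a b : ℤ × ℤ, dt (-a) b = -dt a b := by
      intro a b; unfold dt; simp only [Prod.fst_neg, Prod.snd_neg]; ring
    have g2 : ∀ a b : ℤ × ℤ, dt a (-b) = -dt a b := by
      intro a b; unfold dt; simp only [Prod.fst_neg, Prod.snd_neg]; ring
    rcases ht₁ with e | e <;> rcases ht₂ with e' | e' <;> rw [e, e'] <;>
      simp only [g1, g2, e0] <;> norm_num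
  have ht₁o : ∀ f ∈ F, dt f t₁ ≠ 0 := by
    rcases ht₁ with e | e <;> rw [e]
    · exact ho₁
    · exact neg_off _ ho₁
  have ht₂o : ∀ f ∈ F, dt f t₂ ≠ 0 := by
    rcases ht₂ with e | e <;> rw [e]
    · exact ho₂
    · exact neg_off _ ho₂
  -- the vectors `η`
  obtain ⟨σ, hσ, hσd⟩ : ∃ σ : ℤ, (σ = 1 ∨ σ = -1) ∧ 0 < σ * dt t₁ t₂ := by
    rcases lt_or_gt_of_ne hd with h | h
    · exact ⟨-1, Or.inr rfl, by linarith⟩
    · exact ⟨1, Or.inl rfl, by linarith⟩
  obtain ⟨D, hD'⟩ := Int.eq_ofNat_of_zero_le hσd.le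
  have hD : 0 < D := by omega
  set η : ℕ → ℤ × ℤ := fun u => (σ * (u * t₂.1 - t₁.1), σ * (u * t₂.2 - t₁.2)) with hη
  have hη1 : ∀ u, dt t₁ (η u) = u * D := by
    intro u
    have : dt t₁ (η u) = u * (σ * dt t₁ t₂) := by
      rw [hη]; unfold dt; ring
    rw [this, hD']
  have hη2 : ∀ u, dt t₂ (η u) = D := by
    intro u
    have : dt t₂ (η u) = σ * dt t₁ t₂ := by
      rw [hη]; unfold dt; ring
    rw [this, hD']
  have hη0 : ∀ u, η u ≠ 0 := by
    intro u h0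
    have := hη2 u
    rw [h0] at this
    unfold dt at this
    simp at this
    omega
  have hσ0 : σ ≠ 0 := by rcases hσ with h | h <;> rw [h] <;> norm_num
  have hηoff : ∃ U : ℕ, ∀ u : ℕ, U ≤ u → ∀ f ∈ F, dt f (η u) ≠ 0 := by
    refine ⟨F.sup (fun f => (dt f t₁).natAbs) + 1, fun u hu f hf h0 => ?_⟩
    have e1 : dt f (η u) = σ * (u * dt f t₂ - dt f t₁) := by
      rw [hη]; unfold dt; ring
    rw [e1] at h0
    have h1 := (mul_eq_zero.1 h0).resolve_left hσ0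
    have h2 : (u : ℤ) * dt f t₂ = dt f t₁ := by linarith
    have h3 : u * (dt f t₂).natAbs = (dt f t₁).natAbs := by
      rw [← h2, Int.natAbs_mul, Int.natAbs_natCast]
    have h4 : 1 ≤ (dt f t₂).natAbs := Int.natAbs_pos.2 (ht₂o f hf)
    have h5 := le_sup (f := fun f => (dt f t₁).natAbs) hf
    nlinarith
  obtain ⟨U, hU⟩ := hηoff
  have hval : ∀ u : ℕ, U ≤ u → 0 < u → c₁ * hN H (u * D) = c₂ * hN H D := by
    intro u hu hu0
    have hmemη := hall (η u) (hη0 u) (hU u hu)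
    have a1 := (h₁ (η u) (hη0 u)).1 hmemη (by rw [hη1]; positivity)
    have a2 := (h₂ (η u) (hη0 u)).1 hmemη (by rw [hη2]; exact_mod_cast hD)
    rw [a1, hη1, hη2] at a2
    have e1 : ((u : ℤ) * D).toNat = u * D := by
      have : (u : ℤ) * D = ((u * D : ℕ) : ℤ) := by push_cast; ring
      rw [this, Int.toNat_natCast]
    rw [e1, Int.toNat_natCast] at a2
    exact a2
  have b1 := hval (U + 1) (by omega) (by omega)
  have b2 := hval (m * (U + 1)) (by nlinarith) (by positivity)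
  have hne : ∀ n : ℕ, 0 < n → (n : R) ≠ 0 := fun n hn => Nat.cast_ne_zero.2 hn.ne'
  have e3 : hN H (m * (U + 1) * D) = - hN H ((U + 1) * D) := by
    unfold hN
    rw [if_neg (by positivity), if_neg (by positivity)]
    have : ((m * (U + 1) * D : ℕ) : R) = (m : R) * (((U + 1) * D : ℕ) : R) := by push_cast; ring
    rw [this, hH.mul _ _ hm0 (hne _ (by positivity)), hHm]
    ring
  rw [e3] at b2
  have e4 : c₂ * hN H D ≠ 0 := by
    have : hN H D = 1 ∨ hN H D = -1 := by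
      unfold hN
      rw [if_neg hD.ne']
      exact hH.pm _ (hne D hD)
    rcases hc₂ with h | h <;> rcases this with h' | h' <;> rw [h, h'] <;> norm_num
  apply e4
  linarith

/-- cyclic structure -/
def Cyc (H : R → ℤ) (α β : R) : Prop := ∀ v : ℤ × ℤ, v ≠ 0 → ∃ ξ' : R,
  (∀ n e : ℤ, H ((n : R) - e * ξ') = H ((n : R) - e * vv α β v)) ∧
  ∃ k D : ℕ, 0 < k ∧ 0 < D ∧ ∃ b s : ℤ,
    (k : R) * ξ' = (D : R) * vv α β v ^ 2 + (b : R) * vv α β v + (s : R)

/-- all multiples have eventually constant sign -/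
def SB0 (H : R → ℤ) (θ : R) : Prop := ∀ e : ℕ, 0 < e → ∃ c : ℤ, ∀ᶠ n : ℕ in atTop,
  H ((n : R) - (e : R) * θ) = c

theorem SB0.sb {H : R → ℤ} {θ : R} (h : SB0 H θ) : SB H θ := by
  intro e he
  obtain ⟨c, hc⟩ := h e he
  refine ⟨c, thin_of_eventually ?_⟩
  filter_upwards [hc] with n hn
  intro h'
  exact h' hn

theorem cyc_neg [CharZero R] {H : R → ℤ} (hH : MulH H) {ξ ξ' : R} (hξ : Irr ξ)
    (hξ' : ∀ n e : ℤ, H ((n : R) - e * ξ') = H ((n : R) - e * ξ)) {k D : ℕ} (hk : 0 < k)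
    (hD : 0 < D) (b s : ℤ) (hr : (k : R) * ξ' = (D : R) * ξ ^ 2 + (b : R) * ξ + (s : R))
    (h : SB0 H ξ) : SB0 H (-ξ) := by
  intro e he
  set m := D * e with hm
  have hm0 : 0 < m := Nat.mul_pos hD he
  obtain ⟨c₁, h1⟩ := h m hm0
  obtain ⟨c₃, h3⟩ := h (k * m ^ 2) (by positivity)
  obtain ⟨N₁, hN₁⟩ := eventually_atTop.1 h1
  obtain ⟨N₃, hN₃⟩ := eventually_atTop.1 h3
  have hD0 : (D : R) ≠ 0 := Nat.cast_ne_zero.2 hD.ne'
  refine ⟨c₁ * c₃, eventually_atTop.2 ⟨N₁ + N₃ + (b * e).natAbs + (b * m).natAbs +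
    (s * m ^ 2).natAbs + 2, fun n hn => ?_⟩⟩
  have hDn : (n : ℤ) ≤ D * n := by
    have : 1 ≤ D := hD
    have : n ≤ D * n := Nat.le_mul_of_pos_left n hD
    exact_mod_cast this
  obtain ⟨t, ht⟩ := Int.eq_ofNat_of_zero_le (by omega : 0 ≤ (D : ℤ) * n - b * e)
  have ht1 : (N₁ + N₃ + (b * m).natAbs + (s * m ^ 2).natAbs + 2 : ℤ) ≤ t := by omega
  have hXt : (t : ℤ) ≤ D * t ^ 2 + b * m * t + s * m ^ 2 := by
    set B : ℤ := ((b * m).natAbs : ℤ) with hB
    set S : ℤ := ((s * m ^ 2).natAbs : ℤ) with hS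
    have q1 : -B ≤ b * m := by omega
    have q2 : -S ≤ s * m ^ 2 := by omega
    have hB0 : 0 ≤ B := by omega
    have hS0 : 0 ≤ S := by omega
    have hN10 : (0 : ℤ) ≤ N₁ + N₃ := by positivity
    have ht0 : (0 : ℤ) ≤ t := by omega
    have hD1 : (1 : ℤ) ≤ D := by exact_mod_cast hD
    have q3 : (1 : ℤ) * t ^ 2 ≤ D * t ^ 2 := mul_le_mul_of_nonneg_right hD1 (by positivity)
    have q4 : -B * t ≤ b * m * t := mul_le_mul_of_nonneg_right q1 ht0
    have q5 : (B + S + 2) * t ≤ t * t := mul_le_mul_of_nonneg_right (by omega) ht0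
    nlinarith [mul_le_mul_of_nonneg_left (by omega : (1 : ℤ) ≤ t) hS0]
  obtain ⟨X, hX⟩ := Int.eq_ofNat_of_zero_le (by omega : 0 ≤ (D : ℤ) * t ^ 2 + b * m * t + s * m ^ 2)
  have hXN : N₃ ≤ X := by omega
  have htN : N₁ ≤ t := by omega
  have a1 := hN₁ t htN
  have a3 := hN₃ X hXN
  have e1 : (X : R) = (D : R) * t ^ 2 + b * m * t + s * m ^ 2 := by
    have h' : (((X : ℕ) : ℤ) : R) = (((D : ℤ) * t ^ 2 + b * m * t + s * m ^ 2 : ℤ) : R) := by
      rw [hX]
    push_cast at h'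
    exact h'
  have e2 : (t : R) = (D : R) * n - b * e := by
    have h' : (((t : ℕ) : ℤ) : R) = (((D : ℤ) * n - b * e : ℤ) : R) := by
      rw [ht]
    push_cast at h'
    exact h'
  have e3 : H ((X : R) - ((k * m ^ 2 : ℕ) : R) * ξ') = c₃ := by
    have := hξ' (X : ℤ) ((k * m ^ 2 : ℕ) : ℤ)
    rw [Int.cast_natCast, Int.cast_natCast] at this
    rw [this]
    exact a3
  have e4 : (X : R) - ((k * m ^ 2 : ℕ) : R) * ξ' =
      ((t : R) - (m : R) * ξ) * ((D : R) * ((D : R) * ((n : R) - (e : R) * (-ξ)))) := by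
    have e5 : ((k * m ^ 2 : ℕ) : R) * ξ' = (m : R) ^ 2 * ((k : R) * ξ') := by push_cast; ring
    have e6 : (m : R) = (D : R) * e := by rw [hm]; push_cast; ring
    rw [e5, hr, e1, e6, e2]
    ring
  have n1 : (t : R) - (m : R) * ξ ≠ 0 := by
    have := hξ (t : ℤ) (m : ℤ) (by exact_mod_cast hm0.ne')
    rwa [Int.cast_natCast, Int.cast_natCast] at this
  have n2 : (n : R) - (e : R) * (-ξ) ≠ 0 := by
    have := hξ (n : ℤ) (-(e : ℤ)) (by omega)
    intro h0
    apply this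
    rw [← h0]
    push_cast
    ring
  have n3 : (D : R) * ((n : R) - (e : R) * (-ξ)) ≠ 0 := by
    have := hξ ((D : ℤ) * n) (-((D : ℤ) * e)) (by
      have : 0 < (D : ℤ) * e := by exact_mod_cast hm0
      omega)
    intro h0
    apply this
    rw [← h0]
    push_cast
    ring
  have n4 : (D : R) * ((D : R) * ((n : R) - (e : R) * (-ξ))) ≠ 0 := by
    have := hξ ((D : ℤ) * ((D : ℤ) * n)) (-((D : ℤ) * ((D : ℤ) * e))) (by
      have h1 : 0 < (D : ℤ) * e := by exact_mod_cast hm0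
      have h2 : 0 < (D : ℤ) * ((D : ℤ) * e) := by positivity
      omega)
    intro h0
    apply this
    rw [← h0]
    push_cast
    ring
  rw [e4, hH.mul _ _ n1 n4, hH.mul _ _ hD0 n3, hH.mul _ _ hD0 n2, a1] at e3
  have q1 : H (D : R) * H (D : R) = 1 := by
    rcases hH.pm _ hD0 with h' | h' <;> rw [h'] <;> norm_num
  have q2 : c₁ * c₁ = 1 := by
    rw [← a1]
    rcases hH.pm _ n1 with h' | h' <;> rw [h'] <;> norm_num
  calc H ((n : R) - (e : R) * (-ξ)) = (c₁ * c₁) * (H (D : R) * H (D : R)) *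
        H ((n : R) - (e : R) * (-ξ)) := by rw [q1, q2]; ring
    _ = c₁ * (c₁ * (H (D : R) * (H (D : R) * H ((n : R) - (e : R) * (-ξ))))) := by ring
    _ = c₁ * c₃ := by rw [e3]

/-- both signs infinitely often -/
def Inf (H : R → ℤ) (θ : R) : Prop := ∃ e : ℕ, 0 < e ∧
  {n : ℕ | H ((n : R) - (e : R) * θ) = 1}.Infinite ∧
  {n : ℕ | H ((n : R) - (e : R) * θ) = -1}.Infinite

theorem sb0_of_not_inf [CharZero R] {H : R → ℤ} (hH : MulH H) {θ : R} (hθ : Irr θ)
    (h : ¬ Inf H θ) : SB0 H θ := by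
  intro e he
  have hpm : ∀ n : ℕ, H ((n : R) - (e : R) * θ) = 1 ∨ H ((n : R) - (e : R) * θ) = -1 := by
    intro n
    apply hH.pm
    have := hθ (n : ℤ) (e : ℤ) (by exact_mod_cast he.ne')
    rwa [Int.cast_natCast, Int.cast_natCast] at this
  by_cases h1 : {n : ℕ | H ((n : R) - (e : R) * θ) = 1}.Infinite
  · have h2 : {n : ℕ | H ((n : R) - (e : R) * θ) = -1}.Finite := by
      by_contra hc
      exact h ⟨e, he, h1, hc⟩
    refine ⟨1, ?_⟩
    have h3 := h2.bddAbove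
    obtain ⟨K, hK⟩ := h3
    refine eventually_atTop.2 ⟨K + 1, fun n hn => (hpm n).resolve_right (fun hc => ?_)⟩
    have := hK hc
    omega
  · refine ⟨-1, ?_⟩
    have h3 := (Set.not_infinite.1 h1).bddAbove
    obtain ⟨K, hK⟩ := h3
    refine eventually_atTop.2 ⟨K + 1, fun n hn => (hpm n).resolve_left (fun hc => ?_)⟩
    have := hK hc
    omega

/-- part (b) -/
theorem part_b [CharZero R] {H : R → ℤ} (hH : MulH H) {α β : R} (hC : Cub α β)
    (hz : MZ (hN H)) (hcyc : Cyc H α β) : DZ {v | ¬ Inf H (vv α β v)} := by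
  refine (dz_insert (dz_abs hH hC hz) 0).mono ?_
  intro v hv
  by_cases h0 : v = 0
  · left; exact h0
  · right
    have hi := hC.irr v h0
    have h1 := sb0_of_not_inf hH hi hv
    obtain ⟨ξ', hξ', k, D, hk, hD, b, s, hr⟩ := hcyc v h0
    have h2 := cyc_neg hH hi hξ' hk hD b s hr h1
    exact ⟨h0, h1.sb, h2.sb⟩

end Pool.Agent.T2H52.CF
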