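import Pool.Agent.T2H52.CF.Dens

set_option autoImplicit false

/-! # The relations between the signs attached to elements of a cubic order -/

namespace Pool.Agent.T2H52.CF

open Finset Filter

open Classical in
/-- the set `E` has `o(√X)` elements up to `X` -/
def Thin (E : Set ℕ) : Prop := ∀ ε : ℝ, 0 < ε → ∃ X₀ : ℕ, ∀ X : ℕ, X₀ ≤ X →
  (((Icc 1 X).filter (fun n => n ∈ E)).card : ℝ) ≤ ε * √X

theorem thin_empty : Thin ∅ := by
  intro ε hε
  refine ⟨0, fun X _ => ?_⟩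
  simp
  positivity

theorem Thin.mono {E F : Set ℕ} (hF : Thin F) (h : E ⊆ F) : Thin E := by
  classical
  intro ε hε
  obtain ⟨X₀, hX₀⟩ := hF ε hε
  refine ⟨X₀, fun X hX => le_trans ?_ (hX₀ X hX)⟩
  have : ((Icc 1 X).filter (fun n => n ∈ E)).card ≤ ((Icc 1 X).filter (fun n => n ∈ F)).card := by
    apply card_le_card
    intro n hn
    rw [mem_filter] at hn ⊢
    exact ⟨hn.1, h hn.2⟩
  refine le_trans (le_of_eq ?_) (le_trans (Nat.cast_le.2 this) (le_of_eq ?_)) <;> congr!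

theorem thin_of_eventually {E : Set ℕ} (h : ∀ᶠ n in atTop, n ∉ E) : Thin E := by
  classical
  obtain ⟨K, hK⟩ := eventually_atTop.1 h
  intro ε hε
  obtain ⟨M, hM⟩ := exists_nat_gt ((K : ℝ) / ε)
  refine ⟨M ^ 2, fun X hX => ?_⟩
  have h1 : ((Icc 1 X).filter (fun n => n ∈ E)).card ≤ K := by
    rw [← card_range K]
    apply card_le_card
    intro n hn
    rw [mem_filter] at hn
    rw [mem_range]
    by_contra hc
    exact hK n (not_lt.1 hc) hn.2
  have h2 : (M : ℝ) ≤ √X := by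
    apply Real.le_sqrt_of_sq_le
    exact_mod_cast hX
  have h3 : (K : ℝ) < ε * M := by
    rw [div_lt_iff₀ hε] at hM
    linarith
  have h4 : ε * M ≤ ε * √X := mul_le_mul_of_nonneg_left h2 hε.le
  have h5 : (((Icc 1 X).filter (fun n => n ∈ E)).card : ℝ) ≤ K := by exact_mod_cast h1
  refine le_trans (le_of_eq ?_) (h5.trans (h3.le.trans h4))
  congr!

theorem thin_pull {E : Set ℕ} (hE : Thin E) {g : ℕ → ℕ} {T0 C : ℕ}
    (hinj : Set.InjOn g (Set.Ici T0)) (hg : ∀ t, T0 ≤ t → 1 ≤ g t ∧ g t ≤ C * t ^ 2)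
    {δ : ℝ} (hδ : 0 < δ) [DecidablePred (fun t => g t ∈ E)] :
    ∃ T1 : ℕ, ∀ T : ℕ, T1 ≤ T → (((Icc T0 T).filter (fun t => g t ∈ E)).card : ℝ) ≤ δ * T := by
  classical
  have hC : (0 : ℝ) < √((C : ℝ) + 1) := Real.sqrt_pos.2 (by positivity)
  obtain ⟨X₀, hX₀⟩ := hE (δ / √((C : ℝ) + 1)) (by positivity)
  refine ⟨X₀ + 1, fun T hT => ?_⟩
  have hX : X₀ ≤ (C + 1) * T ^ 2 := by nlinarith [Nat.zero_le (C * T ^ 2)]
  have h1 := hX₀ _ hX
  have h2 : ((Icc T0 T).filter (fun t => g t ∈ E)).card ≤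
      ((Icc 1 ((C + 1) * T ^ 2)).filter (fun n => n ∈ E)).card := by
    refine card_le_card_of_injOn g ?_ ?_
    · intro t ht
      rw [mem_coe, mem_filter, mem_Icc] at ht
      rw [mem_coe, mem_filter, mem_Icc]
      obtain ⟨a1, a2⟩ := hg t ht.1.1
      have a3 : C * t ^ 2 ≤ (C + 1) * T ^ 2 :=
        Nat.mul_le_mul (Nat.le_succ C) (Nat.pow_le_pow_left ht.1.2 2)
      exact ⟨⟨a1, a2.trans a3⟩, ht.2⟩
    · intro t ht t' ht' he
      rw [mem_coe, mem_filter, mem_Icc] at ht ht'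
      exact hinj ht.1.1 ht'.1.1 he
  have h3 : (((Icc T0 T).filter (fun t => g t ∈ E)).card : ℝ) ≤
      δ / √((C : ℝ) + 1) * √(((C + 1) * T ^ 2 : ℕ) : ℝ) := by
    refine le_trans (Nat.cast_le.2 h2) (le_trans (le_of_eq ?_) h1)
    congr!
  refine h3.trans (le_of_eq ?_)
  have h4 : √(((C + 1) * T ^ 2 : ℕ) : ℝ) = √((C : ℝ) + 1) * T := by
    push_cast
    rw [Real.sqrt_mul (by positivity), Real.sqrt_sq (Nat.cast_nonneg T)]
  rw [h4]
  field_simp

theorem pick3 {E1 E2 E3 : Set ℕ} (h1 : Thin E1) (h2 : Thin E2) (h3 : Thin E3)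
    {g1 g2 g3 : ℕ → ℕ} {T0 C : ℕ}
    (i1 : Set.InjOn g1 (Set.Ici T0)) (b1 : ∀ t, T0 ≤ t → 1 ≤ g1 t ∧ g1 t ≤ C * t ^ 2)
    (i2 : Set.InjOn g2 (Set.Ici T0)) (b2 : ∀ t, T0 ≤ t → 1 ≤ g2 t ∧ g2 t ≤ C * t ^ 2)
    (i3 : Set.InjOn g3 (Set.Ici T0)) (b3 : ∀ t, T0 ≤ t → 1 ≤ g3 t ∧ g3 t ≤ C * t ^ 2) :
    ∃ t, T0 ≤ t ∧ g1 t ∉ E1 ∧ g2 t ∉ E2 ∧ g3 t ∉ E3 := by
  classical
  obtain ⟨A1, hA1⟩ := thin_pull h1 i1 b1 (δ := 1 / 8) (by norm_num)
  obtain ⟨A2, hA2⟩ := thin_pull h2 i2 b2 (δ := 1 / 8) (by norm_num)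
  obtain ⟨A3, hA3⟩ := thin_pull h3 i3 b3 (δ := 1 / 8) (by norm_num)
  by_contra hcon
  push Not at hcon
  set T := A1 + A2 + A3 + 2 * T0 + 1 with hT
  have c1 := hA1 T (by omega)
  have c2 := hA2 T (by omega)
  have c3 := hA3 T (by omega)
  have hsub : Icc T0 T ⊆ (Icc T0 T).filter (fun t => g1 t ∈ E1) ∪
      ((Icc T0 T).filter (fun t => g2 t ∈ E2) ∪ (Icc T0 T).filter (fun t => g3 t ∈ E3)) := by
    intro t ht
    rw [mem_union, mem_union, mem_filter, mem_filter, mem_filter]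
    have ht' := (mem_Icc.1 ht).1
    by_cases e1 : g1 t ∈ E1
    · left; exact ⟨ht, e1⟩
    · by_cases e2 : g2 t ∈ E2
      · right; left; exact ⟨ht, e2⟩
      · right; right; exact ⟨ht, hcon t ht' e1 e2⟩
  have h4 := (card_le_card hsub).trans ((card_union_le _ _).trans
    (Nat.add_le_add_left (card_union_le _ _) _))
  rw [Nat.card_Icc] at h4
  have h5 : ((T + 1 - T0 : ℕ) : ℝ) ≤ 3 / 8 * T := by
    have : ((T + 1 - T0 : ℕ) : ℝ) ≤ (((Icc T0 T).filter (fun t => g1 t ∈ E1)).card : ℝ) +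
      ((((Icc T0 T).filter (fun t => g2 t ∈ E2)).card : ℝ) +
        (((Icc T0 T).filter (fun t => g3 t ∈ E3)).card : ℝ)) := by exact_mod_cast h4
    linarith
  have h6 : (T0 : ℝ) ≤ T := by
    have : T0 ≤ T := by omega
    exact_mod_cast this
  have h7 : ((T + 1 - T0 : ℕ) : ℝ) = T + 1 - T0 := by
    rw [Nat.cast_sub (by omega)]
    push_cast
    ring
  have h8 : 2 * (T0 : ℝ) ≤ T := by
    have : 2 * T0 ≤ T := by omega
    exact_mod_cast this
  have h9 : (0 : ℝ) ≤ T0 := Nat.cast_nonneg _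
  rw [h7] at h5
  linarith

variable {R : Type*} [CommRing R]

/-- `H` is completely multiplicative with values `±1` on the nonzero elements -/
structure MulH (H : R → ℤ) : Prop where
  mul : ∀ a b, a ≠ 0 → b ≠ 0 → H (a * b) = H a * H b
  pm : ∀ a, a ≠ 0 → H a = 1 ∨ H a = -1

/-- no nonzero multiple of `θ` is an integer -/
def Irr (θ : R) : Prop := ∀ n e : ℤ, e ≠ 0 → (n : R) - (e : R) * θ ≠ 0

/-- `H (n - θ) = c` for all but `o(√X)` positive integers `n ≤ X` -/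
def EvC (H : R → ℤ) (θ : R) (c : ℤ) : Prop := Thin {n : ℕ | H ((n : R) - θ) ≠ c}

/-- `θ` is bad -/
def Bad (H : R → ℤ) (θ : R) : Prop := ∃ c, EvC H θ c

/-- all multiples of `θ` are bad -/
def SB (H : R → ℤ) (θ : R) : Prop := ∀ e : ℕ, 0 < e → Bad H ((e : R) * θ)

open Classical in
/-- the sign attached to a bad element -/
noncomputable def LL (H : R → ℤ) (θ : R) : ℤ := if h : Bad H θ then h.choose else 0

theorem LL_spec {H : R → ℤ} {θ : R} (h : Bad H θ) : EvC H θ (LL H θ) := by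
  unfold LL
  rw [dif_pos h]
  exact h.choose_spec

theorem SB.bad {H : R → ℤ} {θ : R} (h : SB H θ) : Bad H θ := by
  have := h 1 one_pos
  rwa [Nat.cast_one, one_mul] at this

theorem Irr.neg {θ : R} (h : Irr θ) : Irr (-θ) := by
  intro n e he
  have := h n (-e) (neg_ne_zero.2 he)
  intro h0
  apply this
  push_cast
  rw [← h0]
  ring

theorem Irr.ne {θ : R} (h : Irr θ) (n : ℤ) : (n : R) - θ ≠ 0 := by
  have := h n 1 one_ne_zero
  rwa [Int.cast_one, one_mul] at this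

theorem evc_scale {H : R → ℤ} (hH : MulH H) {θ : R} (hθ : Irr θ) {e : ℕ} (he : 0 < e)
    (he0 : (e : R) ≠ 0) {c c' : ℤ} (h1 : EvC H θ c) (h2 : EvC H ((e : R) * θ) c') :
    c' = H (e : R) * c := by
  obtain ⟨t, ht, a1, a2, _⟩ := pick3 h1 h2 thin_empty (g1 := fun t => t) (g2 := fun t => e * t)
    (g3 := fun t => t) (T0 := 1) (C := e) (fun _ _ _ _ h => h)
    (fun t ht => ⟨ht, by nlinarith [Nat.mul_le_mul he (Nat.mul_le_mul ht ht)]⟩)
    (fun a _ b _ h => Nat.eq_of_mul_eq_mul_left he h)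
    (fun t ht => ⟨Nat.mul_pos he ht, Nat.mul_le_mul_left e (by nlinarith)⟩) (fun _ _ _ _ h => h)
    (fun t ht => ⟨ht, by nlinarith [Nat.mul_le_mul he (Nat.mul_le_mul ht ht)]⟩)
  simp only [Set.mem_ofPred_eq, ne_eq, not_not] at a1 a2
  rw [← a1, ← a2]
  have e1 : ((e * t : ℕ) : R) - (e : R) * θ = (e : R) * ((t : R) - θ) := by push_cast; ring
  rw [e1]
  have e2 := hθ.ne (t : ℤ)
  rw [Int.cast_natCast] at e2
  exact hH.mul _ _ he0 e2

theorem LL_scale {H : R → ℤ} (hH : MulH H) {θ : R} (hθ : Irr θ) {e : ℕ} (he : 0 < e)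
    (he0 : (e : R) ≠ 0) (h : SB H θ) : LL H ((e : R) * θ) = H (e : R) * LL H θ :=
  evc_scale hH hθ he he0 (LL_spec h.bad) (LL_spec (h e he))

/-- the basic relation -/
theorem rel {H : R → ℤ} (hH : MulH H) {ξ ζ : R} (hξ : Irr ξ) {A : ℕ} (hA : 0 < A) (b s : ℤ)
    (hζ : ζ = (A : R) * ξ ^ 2 + (b : R) * ξ + (s : R)) {c1 c2 c3 : ℤ}
    (h1 : EvC H ξ c1) (h2 : EvC H ((A : R) * (-ξ)) c2) (h3 : EvC H ζ c3) : c3 = c1 * c2 := by
  set B := b.natAbs with hB
  set S := s.natAbs with hS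
  have hbB : -(B : ℤ) ≤ b ∧ b ≤ B := by omega
  have hsS : -(S : ℤ) ≤ s ∧ s ≤ S := by omega
  have hA' : (1 : ℤ) ≤ A := by exact_mod_cast hA
  have f2 : ∀ t : ℕ, B + S + 1 ≤ t → (1 : ℤ) ≤ A * t + b ∧ (A : ℤ) * t + b ≤ (A + B + S : ℕ) * t ^ 2 := by
    intro t ht
    have ht' : (B : ℤ) + S + 1 ≤ t := by exact_mod_cast ht
    have hB0 : (0 : ℤ) ≤ B := Int.natCast_nonneg B
    have hS0 : (0 : ℤ) ≤ S := Int.natCast_nonneg S
    have ht1 : (1 : ℤ) ≤ t := by omega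
    have ht2 : (t : ℤ) ≤ t ^ 2 := by nlinarith
    constructor
    · nlinarith
    · push_cast
      nlinarith [mul_le_mul_of_nonneg_left ht2 (by omega : (0 : ℤ) ≤ A),
        mul_le_mul_of_nonneg_left (ht1.trans ht2) hB0,
        mul_le_mul_of_nonneg_left (ht1.trans ht2) hS0]
  have f3 : ∀ t : ℕ, B + S + 1 ≤ t → (1 : ℤ) ≤ A * t ^ 2 + b * t + s ∧
      (A : ℤ) * t ^ 2 + b * t + s ≤ (A + B + S : ℕ) * t ^ 2 := by
    intro t ht
    have ht' : (B : ℤ) + S + 1 ≤ t := by exact_mod_cast ht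
    have hB0 : (0 : ℤ) ≤ B := Int.natCast_nonneg B
    have hS0 : (0 : ℤ) ≤ S := Int.natCast_nonneg S
    have ht1 : (1 : ℤ) ≤ t := by omega
    have ht2 : (t : ℤ) ≤ t ^ 2 := by nlinarith
    have g1 : -(B : ℤ) * t ≤ b * t := mul_le_mul_of_nonneg_right hbB.1 (by omega)
    have g2 : b * t ≤ (B : ℤ) * t := mul_le_mul_of_nonneg_right hbB.2 (by omega)
    constructor
    · have g3 : (1 : ℤ) * t ^ 2 ≤ A * t ^ 2 := mul_le_mul_of_nonneg_right hA' (by positivity)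
      have g4 : ((B : ℤ) + S + 1) * t ≤ t * t := mul_le_mul_of_nonneg_right ht' (by omega)
      nlinarith [mul_le_mul_of_nonneg_left ht1 hS0]
    · push_cast
      nlinarith [mul_le_mul_of_nonneg_left ht2 hB0,
        mul_le_mul_of_nonneg_left (ht1.trans ht2) hS0]
  have hAC : 1 ≤ A + B + S := by omega
  obtain ⟨t, ht, a1, a2, a3⟩ := pick3 h1 h2 h3 (g1 := fun t => t)
    (g2 := fun t => ((A : ℤ) * t + b).toNat)
    (g3 := fun t => ((A : ℤ) * t ^ 2 + b * t + s).toNat) (T0 := B + S + 1) (C := A + B + S)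
    (fun _ _ _ _ h => h)
    (fun t ht => ⟨by omega, by
      have h1 : 1 ≤ t := by omega
      nlinarith [Nat.mul_le_mul hAC (Nat.mul_le_mul h1 h1), Nat.mul_le_mul_right (t ^ 2) hAC]⟩)
    (by
      intro t ht t' ht' he
      simp only [Set.mem_Ici] at ht ht'
      have g1 := (f2 t ht).1
      have g2 := (f2 t' ht').1
      simp only at he
      have : (A : ℤ) * t = A * t' := by omega
      have h0 : (A : ℤ) ≠ 0 := by omega
      exact_mod_cast mul_left_cancel₀ h0 this)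
    (fun t ht => by
      obtain ⟨g1, g2⟩ := f2 t ht
      constructor
      · omega
      · rw [Int.toNat_le]
        exact_mod_cast g2)
    (by
      intro t ht t' ht' he
      simp only [Set.mem_Ici] at ht ht'
      have g1 := (f3 t ht).1
      have g2 := (f3 t' ht').1
      simp only at he
      have e1 : (A : ℤ) * t ^ 2 + b * t + s = A * t' ^ 2 + b * t' + s := by omega
      have e2 : ((t : ℤ) - t') * (A * (t + t') + b) = 0 := by linarith
      rcases mul_eq_zero.1 e2 with h0 | h0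
      · omega
      · exfalso
        have h5 := (f2 t ht).1
        have h6 : (0 : ℤ) ≤ A * t' := by positivity
        linarith)
    (fun t ht => by
      obtain ⟨g1, g2⟩ := f3 t ht
      constructor
      · omega
      · rw [Int.toNat_le]
        exact_mod_cast g2)
  simp only [Set.mem_ofPred_eq, ne_eq, not_not] at a1 a2 a3
  obtain ⟨p2, _⟩ := f2 t ht
  obtain ⟨p3, _⟩ := f3 t ht
  have k2 : ((((A : ℤ) * t + b).toNat : ℕ) : R) = (A : R) * t + b := by
    have : ((((A : ℤ) * t + b).toNat : ℕ) : ℤ) = (A : ℤ) * t + b := Int.toNat_of_nonneg (by omega)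
    have h' : (((((A : ℤ) * t + b).toNat : ℕ) : ℤ) : R) = (((A : ℤ) * t + b : ℤ) : R) := by rw [this]
    push_cast at h'
    exact h'
  have k3 : ((((A : ℤ) * t ^ 2 + b * t + s).toNat : ℕ) : R) = (A : R) * t ^ 2 + b * t + s := by
    have : ((((A : ℤ) * t ^ 2 + b * t + s).toNat : ℕ) : ℤ) = (A : ℤ) * t ^ 2 + b * t + s :=
      Int.toNat_of_nonneg (by omega)
    have h' : (((((A : ℤ) * t ^ 2 + b * t + s).toNat : ℕ) : ℤ) : R) =
      (((A : ℤ) * t ^ 2 + b * t + s : ℤ) : R) := by rw [this]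
    push_cast at h'
    exact h'
  rw [k2] at a2
  rw [k3] at a3
  have n1 : (t : R) - ξ ≠ 0 := by
    have := hξ.ne (t : ℤ)
    rwa [Int.cast_natCast] at this
  have n2 : (A : R) * t + b - (A : R) * (-ξ) ≠ 0 := by
    have := hξ ((A : ℤ) * t + b) (-(A : ℤ)) (by omega)
    intro h0
    apply this
    rw [← h0]
    push_cast
    ring
  have k4 : (A : R) * t ^ 2 + b * t + s - ζ = ((t : R) - ξ) * ((A : R) * t + b - (A : R) * (-ξ)) := by
    rw [hζ]
    ring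
  rw [k4, hH.mul _ _ n1 n2, a1, a2] at a3
  exact a3.symm

theorem pivot {H : R → ℤ} (hH : MulH H) [CharZero R] {ξ η : R} (hξ : Irr ξ) (hη : Irr η)
    {I k D : ℕ} (hI : 0 < I) (hk : 0 < k) (hD : 0 < D) (b s : ℤ)
    (hr : (I : R) * η = ((k * D : ℕ) : R) * ξ ^ 2 + (b : R) * ξ + (s : R))
    (h1 : SB H ξ) (h2 : SB H (-ξ)) (h3 : SB H η) :
    LL H η = H (I : R) * H (k : R) * (LL H ξ * LL H (-ξ)) * H (D : R) := by
  have hkD : 0 < k * D := Nat.mul_pos hk hD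
  have hI0 : (I : R) ≠ 0 := Nat.cast_ne_zero.2 hI.ne'
  have hk0 : (k : R) ≠ 0 := Nat.cast_ne_zero.2 hk.ne'
  have hD0 : (D : R) ≠ 0 := Nat.cast_ne_zero.2 hD.ne'
  have hkD0 : ((k * D : ℕ) : R) ≠ 0 := Nat.cast_ne_zero.2 hkD.ne'
  have e1 := rel hH hξ hkD b s hr (LL_spec h1.bad) (LL_spec (h2 _ hkD)) (LL_spec (h3 I hI))
  rw [LL_scale hH hη hI hI0 h3, LL_scale hH hξ.neg hkD hkD0 h2] at e1
  have e2 : H ((k * D : ℕ) : R) = H (k : R) * H (D : R) := by
    rw [Nat.cast_mul]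
    exact hH.mul _ _ hk0 hD0
  rw [e2] at e1
  have e3 : H (I : R) * H (I : R) = 1 := by
    rcases hH.pm _ hI0 with h | h <;> rw [h] <;> norm_num
  calc LL H η = (H (I : R) * H (I : R)) * LL H η := by rw [e3, one_mul]
    _ = H (I : R) * (H (I : R) * LL H η) := by ring
    _ = H (I : R) * (LL H ξ * (H (k : R) * H (D : R) * LL H (-ξ))) := by rw [e1]
    _ = _ := by ring

/-- the value `LL` is a sign -/
theorem LL_pm {H : R → ℤ} (hH : MulH H) {θ : R} (hθ : Irr θ) (h : Bad H θ) :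
    LL H θ = 1 ∨ LL H θ = -1 := by
  obtain ⟨t, _, a1, _, _⟩ := pick3 (LL_spec h) thin_empty thin_empty (g1 := fun t => t)
    (g2 := fun t => t) (g3 := fun t => t) (T0 := 1) (C := 1) (fun _ _ _ _ h => h)
    (fun t ht => ⟨ht, by nlinarith⟩) (fun _ _ _ _ h => h)
    (fun t ht => ⟨ht, by nlinarith⟩) (fun _ _ _ _ h => h)
    (fun t ht => ⟨ht, by nlinarith⟩)
  simp only [Set.mem_ofPred_eq, ne_eq, not_not] at a1
  rw [← a1]
  apply hH.pm
  have := hθ.ne (t : ℤ)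
  rwa [Int.cast_natCast] at this

/-- the element with coordinates `v` -/
def vv (α β : R) (v : ℤ × ℤ) : R := (v.1 : R) * α + (v.2 : R) * β

theorem vv_neg (α β : R) (v : ℤ × ℤ) : vv α β (-v) = -vv α β v := by
  unfold vv
  simp only [Prod.fst_neg, Prod.snd_neg]
  push_cast
  ring

/-- the structure of a cubic order -/
structure Cub (α β : R) : Prop where
  irr : ∀ v : ℤ × ℤ, v ≠ 0 → Irr (vv α β v)
  quad : ∀ v : ℤ × ℤ, v ≠ 0 → ∃ k : ℕ, 0 < k ∧ ∃ s : ℤ, ∃ w : ℤ × ℤ,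
    (k : R) * vv α β v ^ 2 = s + vv α β w ∧ dt v w ≠ 0

/-- the restriction of `H` to the positive integers -/
def hN (H : R → ℤ) (n : ℕ) : ℤ := if n = 0 then 0 else H (n : R)

/-- the strongly bad vectors -/
def SBS (H : R → ℤ) (α β : R) : Set (ℤ × ℤ) :=
  {v | v ≠ 0 ∧ SB H (vv α β v) ∧ SB H (-vv α β v)}

theorem pivot_vec {H : R → ℤ} (hH : MulH H) [CharZero R] {α β : R} (hC : Cub α β)
    {s : ℤ × ℤ} (hs : s ∈ SBS H α β) : ∃ t : ℤ × ℤ, (t = s ∨ t = -s) ∧ ∃ c : ℤ, (c = 1 ∨ c = -1) ∧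
      ∀ η : ℤ × ℤ, η ≠ 0 →
      (SB H (vv α β η) → 0 < dt t η → LL H (vv α β η) = c * hN H (dt t η).toNat) ∧
      (SB H (-vv α β η) → dt t η < 0 → LL H (-vv α β η) = c * hN H (-dt t η).toNat) := by
  have main : ∀ t : ℤ × ℤ, t ≠ 0 → SB H (vv α β t) → SB H (-vv α β t) → ∀ k : ℕ, 0 < k →
      ∀ (s₀ : ℤ) (w : ℤ × ℤ), (k : R) * vv α β t ^ 2 = s₀ + vv α β w → 0 < dt t w →
      ∃ c : ℤ, (c = 1 ∨ c = -1) ∧ ∀ η : ℤ × ℤ, η ≠ 0 →
      (SB H (vv α β η) → 0 < dt t η → LL H (vv α β η) = c * hN H (dt t η).toNat) ∧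
      (SB H (-vv α β η) → dt t η < 0 → LL H (-vv α β η) = c * hN H (-dt t η).toNat) := by
    intro t ht0 ht1 ht2 k hk s₀ w hkw hI
    have hIrr := hC.irr t ht0
    have hk0 : (k : R) ≠ 0 := Nat.cast_ne_zero.2 hk.ne'
    obtain ⟨I, hI'⟩ := Int.eq_ofNat_of_zero_le hI.le
    have hIpos : 0 < I := by omega
    have hI0 : (I : R) ≠ 0 := Nat.cast_ne_zero.2 hIpos.ne'
    refine ⟨H (I : R) * H (k : R) * (LL H (vv α β t) * LL H (-vv α β t)), ?_, ?_⟩
    · rcases hH.pm _ hI0 with h1 | h1 <;> rcases hH.pm _ hk0 with h2 | h2 <;>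
        rcases LL_pm hH hIrr ht1.bad with h3 | h3 <;>
        rcases LL_pm hH hIrr.neg ht2.bad with h4 | h4 <;> rw [h1, h2, h3, h4] <;> norm_num
    · intro η hη0
      have hrel : (I : R) * vv α β η = ((dt t η : ℤ) : R) * (k * vv α β t ^ 2 - s₀) +
          ((η.1 * w.2 - η.2 * w.1 : ℤ) : R) * vv α β t := by
        have e1 : (I : R) = ((dt t w : ℤ) : R) := by rw [hI']; simp
        rw [e1, hkw]
        unfold vv dt
        push_cast
        ring
      constructor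
      · intro hη1 hD
        obtain ⟨D, hD'⟩ := Int.eq_ofNat_of_zero_le hD.le
        have hDpos : 0 < D := by omega
        have e2 : ((dt t η : ℤ) : R) = (D : R) := by rw [hD']; simp
        have e3 : hN H (dt t η).toNat = H (D : R) := by
          rw [hD']
          unfold hN
          rw [if_neg (by simp; omega)]
          simp
        rw [e3]
        refine pivot hH hIrr (hC.irr η hη0) hIpos hk hDpos (η.1 * w.2 - η.2 * w.1) (-(dt t η) * s₀)
          ?_ ht1 ht2 hη1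
        rw [hrel]
        push_cast
        rw [e2]
        ring
      · intro hη1 hD
        obtain ⟨D, hD'⟩ := Int.eq_ofNat_of_zero_le (by omega : 0 ≤ -dt t η)
        have hDpos : 0 < D := by omega
        have e2 : ((dt t η : ℤ) : R) = -(D : R) := by
          have : dt t η = -(D : ℤ) := by omega
          rw [this]; simp
        have e3 : hN H (-dt t η).toNat = H (D : R) := by
          rw [hD']
          unfold hN
          rw [if_neg (by simp; omega)]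
          simp
        rw [e3]
        refine pivot hH hIrr (hC.irr η hη0).neg hIpos hk hDpos (-(η.1 * w.2 - η.2 * w.1)) (dt t η * s₀)
          ?_ ht1 ht2 hη1
        rw [mul_neg, hrel]
        push_cast
        rw [e2]
        ring
  obtain ⟨hs0, hs1, hs2⟩ := hs
  obtain ⟨k, hk, s₀, w, hkw, hdw⟩ := hC.quad s hs0
  rcases lt_or_gt_of_ne hdw with h | h
  · refine ⟨-s, Or.inr rfl, ?_⟩
    apply main (-s) (neg_ne_zero.2 hs0) (by rw [vv_neg]; exact hs2) (by rw [vv_neg, neg_neg]; exact hs1)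
      k hk s₀ w
    · rw [vv_neg, neg_sq, hkw]
    · unfold dt at h ⊢
      simp only [Prod.fst_neg, Prod.snd_neg]
      linarith
  · exact ⟨s, Or.inl rfl, main s hs0 hs1 hs2 k hk s₀ w hkw h⟩

theorem dz_abs {H : R → ℤ} (hH : MulH H) [CharZero R] {α β : R} (hC : Cub α β)
    (hz : MZ (hN H)) : DZ (SBS H α β) := by
  have hpm : ∀ n : ℕ, 0 < n → hN H n = 1 ∨ hN H n = -1 := by
    intro n hn
    unfold hN
    rw [if_neg hn.ne']
    exact hH.pm _ (Nat.cast_ne_zero.2 hn.ne')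
  refine dz_main hz ?_ hpm (SBS H α β) (fun η => LL H (vv α β η)) (fun η => LL H (-vv α β η))
    (fun s hs => hs.1) ?_
  · intro n
    rcases Nat.eq_zero_or_pos n with h0 | h0
    · rw [h0]; unfold hN; simp
    · rcases hpm n h0 with h | h <;> rw [h] <;> norm_num
  · intro s hs
    obtain ⟨t, ht, c, hc, h⟩ := pivot_vec hH hC hs
    refine ⟨t, ht, c, hc, fun η hη => ⟨fun hd => ?_, fun hd => ?_⟩⟩
    · exact (h η hη.1).1 hη.2.1 hd
    · exact (h η hη.1).2 hη.2.2 hd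

end Pool.Agent.T2H52.CF
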