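import Mathlib

set_option autoImplicit false

/-! # Averages of a multiplicative function at two independent linear forms -/

namespace Pool.Agent.T2H52.CF

open Finset Filter

/-- `h` has mean value zero in every residue class -/
def MZ (h : ℕ → ℤ) : Prop := ∀ q a : ℕ, 0 < q → ∀ ε : ℝ, 0 < ε →
  ∃ N₀ : ℕ, ∀ N : ℕ, N₀ ≤ N → |∑ n ∈ Icc 1 N, ((if n % q = a then h n else 0 : ℤ) : ℝ)| ≤ ε * N

/-- the extension of `h` by zero to the nonpositive integers -/
def hp (h : ℕ → ℤ) (z : ℤ) : ℤ := if 0 < z then h z.toNat else 0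

/-- the box `[-H, H]²` -/
noncomputable def box (H : ℕ) : Finset (ℤ × ℤ) := Icc (-(H : ℤ)) H ×ˢ Icc (-(H : ℤ)) H

theorem card_box (H : ℕ) : ((box H).card : ℝ) = (2 * H + 1) ^ 2 := by
  unfold box
  rw [card_product, Int.card_Icc]
  have : ((H : ℤ) + 1 - (-(H : ℤ))).toNat = 2 * H + 1 := by omega
  rw [this]
  push_cast
  ring

/-- prefix sums bound sums over order convex sets -/
theorem conv_sum (g : ℕ → ℝ) (N : ℕ) (E : ℝ)
    (hE : ∀ y : ℕ, y ≤ N → |∑ n ∈ Icc 1 y, g n| ≤ E) (P : ℕ → Prop) [DecidablePred P]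
    (hP : ∀ a b c : ℕ, a ≤ b → b ≤ c → P a → P c → P b) :
    |∑ n ∈ (Icc 1 N).filter P, g n| ≤ 2 * E := by
  have hE0 : 0 ≤ E := (abs_nonneg _).trans (hE 0 (Nat.zero_le _))
  rcases ((Icc 1 N).filter P).eq_empty_or_nonempty with h0 | hne
  · rw [h0]
    simp [hE0]
  · set A := (Icc 1 N).filter P with hA
    obtain ⟨a, ha, hamin⟩ := A.exists_min_image id hne
    obtain ⟨b, hb, hbmax⟩ := A.exists_max_image id hne
    simp only [id] at hamin hbmax
    have ha' := ha
    have hb' := hb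
    rw [hA, mem_filter, mem_Icc] at ha' hb'
    have hAeq : A = Icc a b := by
      ext n
      rw [mem_Icc]
      constructor
      · intro hn
        exact ⟨hamin n hn, hbmax n hn⟩
      · intro hn
        rw [hA, mem_filter, mem_Icc]
        exact ⟨⟨by omega, by omega⟩, hP a n b hn.1 hn.2 ha'.2 hb'.2⟩
    have hab : a ≤ b := hamin b hb
    have hu : Icc 1 b = Icc 1 (a - 1) ∪ Icc a b := by
      ext n
      rw [mem_union, mem_Icc, mem_Icc, mem_Icc]
      omega
    have hd : Disjoint (Icc 1 (a - 1)) (Icc a b) := by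
      rw [disjoint_left]
      intro n h1 h2
      rw [mem_Icc] at h1 h2
      omega
    have hs : ∑ n ∈ Icc 1 b, g n = ∑ n ∈ Icc 1 (a - 1), g n + ∑ n ∈ Icc a b, g n := by
      rw [hu, sum_union hd]
    have h1 := hE b (by omega)
    have h2 := hE (a - 1) (by omega)
    rw [hAeq]
    have h3 : ∑ n ∈ Icc a b, g n = ∑ n ∈ Icc 1 b, g n - ∑ n ∈ Icc 1 (a - 1), g n := by linarith
    rw [h3]
    rw [abs_le] at *
    constructor <;> linarith

/-- a uniform bound for all prefixes -/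
theorem mz_unif {h : ℕ → ℤ} (hz : MZ h) (hb : ∀ n, |h n| ≤ 1) (q : ℕ) (hq : 0 < q) {ε : ℝ}
    (hε : 0 < ε) : ∃ N₀ : ℕ, ∀ N : ℕ, N₀ ≤ N → ∀ r < q, ∀ y : ℕ, y ≤ N →
      |∑ n ∈ Icc 1 y, ((if n % q = r then h n else 0 : ℤ) : ℝ)| ≤ ε * N := by
  have h1 : ∀ r : ℕ, ∃ N₀ : ℕ, ∀ N : ℕ, N₀ ≤ N →
      |∑ n ∈ Icc 1 N, ((if n % q = r then h n else 0 : ℤ) : ℝ)| ≤ ε * N :=
    fun r => hz q r hq ε hε
  choose f hf using h1
  set M := (range q).sup f with hM
  obtain ⟨K, hK⟩ := exists_nat_gt ((M : ℝ) / ε)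
  refine ⟨max M K, fun N hN r hr y hy => ?_⟩
  have hfM : f r ≤ M := le_sup (f := f) (mem_range.2 hr)
  have hNr : (y : ℝ) ≤ N := by exact_mod_cast hy
  rcases le_or_gt M y with hMy | hyM
  · refine (hf r y (hfM.trans hMy)).trans ?_
    exact mul_le_mul_of_nonneg_left hNr hε.le
  · have h2 : |∑ n ∈ Icc 1 y, ((if n % q = r then h n else 0 : ℤ) : ℝ)| ≤ y := by
      refine (abs_sum_le_sum_abs _ _).trans ?_
      have : ∀ n ∈ Icc 1 y, |((if n % q = r then h n else 0 : ℤ) : ℝ)| ≤ 1 := by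
        intro n _
        split_ifs
        · rw [← Int.cast_abs]
          exact_mod_cast hb n
        · simp
      refine (sum_le_sum this).trans ?_
      simp
    refine h2.trans ?_
    have h3 : (y : ℝ) ≤ M := by exact_mod_cast hyM.le
    have h4 : (K : ℝ) ≤ N := by exact_mod_cast (le_max_right _ _).trans hN
    have h5 : (M : ℝ) < ε * K := by
      rw [div_lt_iff₀ hε] at hK
      linarith
    have h6 : ε * K ≤ ε * N := mul_le_mul_of_nonneg_left h4 hε.le
    linarith

/-- the inner sum -/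
theorem inner_bound {h : ℕ → ℤ} (q : ℕ) (hq : 0 < q) (N : ℕ) (E : ℝ)
    (hE : ∀ r < q, ∀ y : ℕ, y ≤ N →
      |∑ n ∈ Icc 1 y, ((if n % q = r then h n else 0 : ℤ) : ℝ)| ≤ E)
    (J C : ℕ → Prop) [DecidablePred J] [DecidablePred C]
    (hJ : ∀ a b c : ℕ, a ≤ b → b ≤ c → J a → J c → J b)
    (hC : ∀ v, C v ↔ C (v % q)) :
    |∑ v ∈ (Icc 1 N).filter (fun v => J v ∧ C v), (h v : ℝ)| ≤ q * (2 * E) := by
  have e1 : ∑ v ∈ (Icc 1 N).filter (fun v => J v ∧ C v), (h v : ℝ) =
      ∑ r ∈ range q, if C r then ∑ v ∈ (Icc 1 N).filter J,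
        ((if v % q = r then h v else 0 : ℤ) : ℝ) else 0 := by
    rw [← filter_filter, sum_filter]
    have : ∀ v ∈ (Icc 1 N).filter J, (if C v then (h v : ℝ) else 0) =
        ∑ r ∈ range q, if C r then ((if v % q = r then h v else 0 : ℤ) : ℝ) else 0 := by
      intro v _
      rw [sum_eq_single (v % q)]
      · rw [if_pos rfl]
        by_cases hv : C v
        · rw [if_pos hv, if_pos ((hC v).1 hv)]
        · rw [if_neg hv, if_neg (fun h' => hv ((hC v).2 h'))]
      · intro r _ hr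
        have hne : ¬ v % q = r := fun h' => hr h'.symm
        simp [hne]
      · intro hv
        exact absurd (mem_range.2 (Nat.mod_lt v hq)) hv
    rw [sum_congr rfl this, sum_comm]
    apply sum_congr rfl
    intro r _
    split_ifs
    · rfl
    · simp
  rw [e1]
  refine (abs_sum_le_sum_abs _ _).trans ?_
  have h2 : ∀ r ∈ range q, |if C r then ∑ v ∈ (Icc 1 N).filter J,
        ((if v % q = r then h v else 0 : ℤ) : ℝ) else 0| ≤ 2 * E := by
    intro r hr
    rw [mem_range] at hr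
    have h3 := conv_sum (fun v => ((if v % q = r then h v else 0 : ℤ) : ℝ)) N E
      (hE r hr) J hJ
    split_ifs
    · exact h3
    · rw [abs_zero]
      exact (abs_nonneg _).trans h3
  refine (sum_le_sum h2).trans ?_
  rw [sum_const, card_range, nsmul_eq_mul]

/-- the correlation over one quadrant -/
theorem quad_bound {h : ℕ → ℤ} (hz : MZ h) (hb : ∀ n, |h n| ≤ 1) (p q p2 q2 : ℤ)
    (hΔ : p * q2 - q * p2 ≠ 0) {δ : ℝ} (hδ : 0 < δ) : ∃ H₀ : ℕ, ∀ H : ℕ, H₀ ≤ H →
      |∑ η ∈ box H, ((hp h (p * η.2 - q * η.1) * hp h (p2 * η.2 - q2 * η.1) : ℤ) : ℝ)| ≤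
        δ * (2 * H + 1) ^ 2 := by
  set Δ := p * q2 - q * p2 with hΔd
  set Q := Δ.natAbs with hQd
  have hQ : 0 < Q := Int.natAbs_pos.2 hΔ
  set C := (|p| + |q| + |p2| + |q2|).toNat with hCd
  have hC : (C : ℤ) = |p| + |q| + |p2| + |q2| := Int.toNat_of_nonneg (by positivity)
  set ε := δ / (2 * Q * C ^ 2 + 1) with hεd
  have hε : 0 < ε := by positivity
  obtain ⟨N₀, hN₀⟩ := mz_unif hz hb Q hQ hε
  refine ⟨N₀, fun H hH => ?_⟩
  set N := C * H with hNd
  have hC1 : 1 ≤ C := by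
    rcases Nat.eq_zero_or_pos C with h0 | h0
    · exfalso
      apply hΔ
      have h1 : |p| + |q| + |p2| + |q2| = 0 := by rw [← hC, h0]; rfl
      have a1 := abs_nonneg p
      have a2 := abs_nonneg q
      have a3 := abs_nonneg p2
      have a4 := abs_nonneg q2
      have b1 : p = 0 := abs_eq_zero.1 (by omega)
      have b2 : q = 0 := abs_eq_zero.1 (by omega)
      rw [hΔd, b1, b2]
      ring
    · exact h0
  have hNN : N₀ ≤ N := by
    rw [hNd]
    nlinarith
  have hE := hN₀ N hNN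
  set J : ℕ → ℕ → Prop := fun u v => |p2 * u - p * v| ≤ |Δ| * H ∧ |q2 * u - q * v| ≤ |Δ| * H with hJd
  set Cc : ℕ → ℕ → Prop := fun u v => Δ ∣ p2 * u - p * v ∧ Δ ∣ q2 * u - q * v with hCcd
  classical
  have key : ∑ η ∈ box H, ((hp h (p * η.2 - q * η.1) * hp h (p2 * η.2 - q2 * η.1) : ℤ) : ℝ) =
      ∑ u ∈ Icc 1 N, (h u : ℝ) * ∑ v ∈ (Icc 1 N).filter (fun v => J u v ∧ Cc u v), (h v : ℝ) := by
    have e1 : ∑ η ∈ box H, ((hp h (p * η.2 - q * η.1) * hp h (p2 * η.2 - q2 * η.1) : ℤ) : ℝ) =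
        ∑ η ∈ (box H).filter (fun η => 0 < p * η.2 - q * η.1 ∧ 0 < p2 * η.2 - q2 * η.1),
          (h (p * η.2 - q * η.1).toNat : ℝ) * (h (p2 * η.2 - q2 * η.1).toNat : ℝ) := by
      rw [sum_filter]
      apply sum_congr rfl
      intro η _
      unfold hp
      by_cases h1 : 0 < p * η.2 - q * η.1
      · by_cases h2 : 0 < p2 * η.2 - q2 * η.1
        · rw [if_pos h1, if_pos h2, if_pos ⟨h1, h2⟩]
          push_cast
          ring
        · have h3 : ¬ (0 < p * η.2 - q * η.1 ∧ 0 < p2 * η.2 - q2 * η.1) := fun h' => h2 h'.2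
          rw [if_neg h2, if_neg h3]
          simp
      · have h3 : ¬ (0 < p * η.2 - q * η.1 ∧ 0 < p2 * η.2 - q2 * η.1) := fun h' => h1 h'.1
        rw [if_neg h1, if_neg h3]
        simp
    have e2 : ∑ u ∈ Icc 1 N, (h u : ℝ) * ∑ v ∈ (Icc 1 N).filter (fun v => J u v ∧ Cc u v), (h v : ℝ) =
        ∑ w ∈ (Icc 1 N ×ˢ Icc 1 N).filter (fun w => J w.1 w.2 ∧ Cc w.1 w.2),
          (h w.1 : ℝ) * (h w.2 : ℝ) := by
      rw [sum_filter, sum_product]
      apply sum_congr rfl
      intro u _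
      rw [mul_sum, sum_filter]
    rw [e1, e2]
    refine sum_nbij' (fun η => ((p * η.2 - q * η.1).toNat, (p2 * η.2 - q2 * η.1).toNat))
      (fun w => ((p2 * w.1 - p * w.2) / Δ, (q2 * w.1 - q * w.2) / Δ)) ?_ ?_ ?_ ?_ ?_
    · rintro ⟨x, y⟩ hη
      simp only [mem_filter, box, mem_product, mem_Icc] at hη
      obtain ⟨⟨⟨hx1, hx2⟩, hy1, hy2⟩, hu, hv⟩ := hη
      have hax : |x| ≤ H := abs_le.2 ⟨hx1, hx2⟩
      have hay : |y| ≤ H := abs_le.2 ⟨hy1, hy2⟩
      have hu' : ((p * y - q * x).toNat : ℤ) = p * y - q * x := Int.toNat_of_nonneg hu.le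
      have hv' : ((p2 * y - q2 * x).toNat : ℤ) = p2 * y - q2 * x := Int.toNat_of_nonneg hv.le
      have i1 : p2 * (p * y - q * x) - p * (p2 * y - q2 * x) = Δ * x := by rw [hΔd]; ring
      have i2 : q2 * (p * y - q * x) - q * (p2 * y - q2 * x) = Δ * y := by rw [hΔd]; ring
      have hbu : p * y - q * x ≤ N := by
        have : p * y - q * x ≤ |p| * |y| + |q| * |x| := by
          rw [← abs_mul, ← abs_mul]
          have := le_abs_self (p * y)
          have := neg_abs_le (q * x)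
          linarith
        have h3 : |p| * |y| ≤ |p| * H := mul_le_mul_of_nonneg_left hay (abs_nonneg _)
        have h4 : |q| * |x| ≤ |q| * H := mul_le_mul_of_nonneg_left hax (abs_nonneg _)
        rw [hNd]
        push_cast
        rw [hC]
        have := mul_nonneg (abs_nonneg p2) (Int.natCast_nonneg H)
        have := mul_nonneg (abs_nonneg q2) (Int.natCast_nonneg H)
        linarith
      have hbv : p2 * y - q2 * x ≤ N := by
        have : p2 * y - q2 * x ≤ |p2| * |y| + |q2| * |x| := by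
          rw [← abs_mul, ← abs_mul]
          have := le_abs_self (p2 * y)
          have := neg_abs_le (q2 * x)
          linarith
        have h3 : |p2| * |y| ≤ |p2| * H := mul_le_mul_of_nonneg_left hay (abs_nonneg _)
        have h4 : |q2| * |x| ≤ |q2| * H := mul_le_mul_of_nonneg_left hax (abs_nonneg _)
        rw [hNd]
        push_cast
        rw [hC]
        have := mul_nonneg (abs_nonneg p) (Int.natCast_nonneg H)
        have := mul_nonneg (abs_nonneg q) (Int.natCast_nonneg H)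
        linarith
      simp only [mem_filter, mem_product, mem_Icc, hJd, hCcd]
      rw [hu', hv', i1, i2]
      refine ⟨⟨⟨by omega, by omega⟩, by omega, by omega⟩, ⟨?_, ?_⟩, dvd_mul_right _ _,
        dvd_mul_right _ _⟩
      · rw [abs_mul]
        exact mul_le_mul_of_nonneg_left hax (abs_nonneg _)
      · rw [abs_mul]
        exact mul_le_mul_of_nonneg_left hay (abs_nonneg _)
    · rintro ⟨u, v⟩ hw
      simp only [mem_filter, mem_product, mem_Icc, hJd, hCcd] at hw
      obtain ⟨⟨⟨hu1, hu2⟩, hv1, hv2⟩, ⟨hj1, hj2⟩, hc1, hc2⟩ := hw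
      obtain ⟨x, hx⟩ := hc1
      obtain ⟨y, hy⟩ := hc2
      have ex : (p2 * u - p * v) / Δ = x := by rw [hx]; exact Int.mul_ediv_cancel_left _ hΔ
      have ey : (q2 * u - q * v) / Δ = y := by rw [hy]; exact Int.mul_ediv_cancel_left _ hΔ
      have hΔ0 : 0 < |Δ| := abs_pos.2 hΔ
      rw [hx, abs_mul] at hj1
      rw [hy, abs_mul] at hj2
      have hx' := abs_le.1 (le_of_mul_le_mul_left hj1 hΔ0)
      have hy' := abs_le.1 (le_of_mul_le_mul_left hj2 hΔ0)
      have hu : p * y - q * x = u := by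
        have : Δ * (p * y - q * x) = Δ * u := by
          have : Δ * (p * y - q * x) = p * (Δ * y) - q * (Δ * x) := by ring
          rw [this, ← hx, ← hy, hΔd]
          ring
        exact mul_left_cancel₀ hΔ this
      have hv : p2 * y - q2 * x = v := by
        have : Δ * (p2 * y - q2 * x) = Δ * v := by
          have : Δ * (p2 * y - q2 * x) = p2 * (Δ * y) - q2 * (Δ * x) := by ring
          rw [this, ← hx, ← hy, hΔd]
          ring
        exact mul_left_cancel₀ hΔ this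
      simp only [mem_filter, box, mem_product, mem_Icc]
      rw [ex, ey, hu, hv]
      exact ⟨⟨hx', hy'⟩, by omega, by omega⟩
    · rintro ⟨x, y⟩ hη
      simp only [mem_filter, box, mem_product, mem_Icc] at hη
      obtain ⟨_, hu, hv⟩ := hη
      have hu' : ((p * y - q * x).toNat : ℤ) = p * y - q * x := Int.toNat_of_nonneg hu.le
      have hv' : ((p2 * y - q2 * x).toNat : ℤ) = p2 * y - q2 * x := Int.toNat_of_nonneg hv.le
      have i1 : p2 * (p * y - q * x) - p * (p2 * y - q2 * x) = Δ * x := by rw [hΔd]; ring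
      have i2 : q2 * (p * y - q * x) - q * (p2 * y - q2 * x) = Δ * y := by rw [hΔd]; ring
      simp only
      rw [hu', hv', i1, i2, Int.mul_ediv_cancel_left _ hΔ, Int.mul_ediv_cancel_left _ hΔ]
    · rintro ⟨u, v⟩ hw
      simp only [mem_filter, mem_product, mem_Icc, hJd, hCcd] at hw
      obtain ⟨⟨⟨hu1, hu2⟩, hv1, hv2⟩, ⟨hj1, hj2⟩, hc1, hc2⟩ := hw
      obtain ⟨x, hx⟩ := hc1
      obtain ⟨y, hy⟩ := hc2
      have ex : (p2 * u - p * v) / Δ = x := by rw [hx]; exact Int.mul_ediv_cancel_left _ hΔ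
      have ey : (q2 * u - q * v) / Δ = y := by rw [hy]; exact Int.mul_ediv_cancel_left _ hΔ
      have hu : p * y - q * x = u := by
        have : Δ * (p * y - q * x) = Δ * u := by
          have : Δ * (p * y - q * x) = p * (Δ * y) - q * (Δ * x) := by ring
          rw [this, ← hx, ← hy, hΔd]
          ring
        exact mul_left_cancel₀ hΔ this
      have hv : p2 * y - q2 * x = v := by
        have : Δ * (p2 * y - q2 * x) = Δ * v := by
          have : Δ * (p2 * y - q2 * x) = p2 * (Δ * y) - q2 * (Δ * x) := by ring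
          rw [this, ← hx, ← hy, hΔd]
          ring
        exact mul_left_cancel₀ hΔ this
      simp only
      rw [ex, ey, hu, hv, Int.toNat_natCast, Int.toNat_natCast]
    · rintro ⟨x, y⟩ _
      rfl
  rw [key]
  have hin : ∀ u ∈ Icc 1 N, |(h u : ℝ) * ∑ v ∈ (Icc 1 N).filter (fun v => J u v ∧ Cc u v),
      (h v : ℝ)| ≤ Q * (2 * (ε * N)) := by
    intro u _
    rw [abs_mul]
    have h1 : |(h u : ℝ)| ≤ 1 := by
      rw [← Int.cast_abs]
      exact_mod_cast hb u
    have h2 := inner_bound (h := h) Q hQ N (ε * N) hE (J u) (Cc u) ?_ ?_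
    · calc |(h u : ℝ)| * _ ≤ 1 * _ := mul_le_mul_of_nonneg_right h1 (abs_nonneg _)
        _ ≤ _ := by rw [one_mul]; exact h2
    · rintro a b c hab hbc ⟨ha1, ha2⟩ ⟨hc1, hc2⟩
      have hab' : (a : ℤ) ≤ b := by exact_mod_cast hab
      have hbc' : (b : ℤ) ≤ c := by exact_mod_cast hbc
      have conv : ∀ A B M : ℤ, |A - B * a| ≤ M → |A - B * c| ≤ M → |A - B * b| ≤ M := by
        intro A B M h1 h2
        rw [abs_le] at *
        rcases le_total 0 B with hB | hB
        · have := mul_le_mul_of_nonneg_left hab' hB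
          have := mul_le_mul_of_nonneg_left hbc' hB
          constructor <;> linarith
        · have := mul_le_mul_of_nonpos_left hab' hB
          have := mul_le_mul_of_nonpos_left hbc' hB
          constructor <;> linarith
      exact ⟨conv _ _ _ ha1 hc1, conv _ _ _ ha2 hc2⟩
    · intro v
      have hmod : Δ ∣ (v : ℤ) - ((v % Q : ℕ) : ℤ) := by
        have h1 : (Q : ℤ) ∣ (v : ℤ) - ((v % Q : ℕ) : ℤ) := by
          refine ⟨((v / Q : ℕ) : ℤ), ?_⟩
          have := Nat.div_add_mod v Q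
          have h2 : ((Q * (v / Q) + v % Q : ℕ) : ℤ) = v := by rw [this]
          push_cast at h2
          push_cast
          linarith
        exact Int.natAbs_dvd.1 h1
      have tr : ∀ A B : ℤ, (Δ ∣ A - B * v ↔ Δ ∣ A - B * ((v % Q : ℕ) : ℤ)) := by
        intro A B
        have e : A - B * ((v % Q : ℕ) : ℤ) = (A - B * v) + B * ((v : ℤ) - ((v % Q : ℕ) : ℤ)) := by
          ring
        rw [e]
        exact (dvd_add_left (Dvd.dvd.mul_left hmod B)).symm
      simp only [hCcd]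
      rw [tr, tr]
  refine (abs_sum_le_sum_abs _ _).trans ((sum_le_sum hin).trans ?_)
  rw [sum_const, Nat.card_Icc, nsmul_eq_mul]
  have e3 : ((N + 1 - 1 : ℕ) : ℝ) = C * H := by
    rw [Nat.add_sub_cancel, hNd]
    push_cast
    ring
  have e4 : (N : ℝ) = C * H := by
    rw [hNd]
    push_cast
    ring
  rw [e3, e4]
  have e5 : ε * (2 * Q * C ^ 2 + 1) = δ := by
    rw [hεd]
    field_simp
  have hH0 : (0 : ℝ) ≤ H := Nat.cast_nonneg H
  have h6 : (C * H : ℝ) * (Q * (2 * (ε * (C * H)))) = (ε * (2 * Q * C ^ 2)) * H ^ 2 := by ring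
  rw [h6]
  have h7 : ε * (2 * Q * C ^ 2) ≤ δ := by nlinarith
  have h8 : (H : ℝ) ^ 2 ≤ (2 * H + 1) ^ 2 := by nlinarith
  calc ε * (2 * Q * C ^ 2) * (H : ℝ) ^ 2 ≤ δ * (H : ℝ) ^ 2 :=
        mul_le_mul_of_nonneg_right h7 (by positivity)
    _ ≤ δ * (2 * H + 1) ^ 2 := mul_le_mul_of_nonneg_left h8 hδ.le

end Pool.Agent.T2H52.CF
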