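import Pool.Agent.T2H52.CF.Ana

set_option autoImplicit false

/-! # A set of vectors whose pairwise determinants have rank one signs has density zero -/

namespace Pool.Agent.T2H52.CF

open Finset Filter

open Classical in
/-- `S` has density zero in the boxes `[-H, H]²` -/
def DZ (S : Set (ℤ × ℤ)) : Prop := ∀ ε : ℝ, 0 < ε → ∃ H₀ : ℕ, ∀ H : ℕ, H₀ ≤ H →
  (((box H).filter (fun η => η ∈ S)).card : ℝ) ≤ ε * (2 * H + 1) ^ 2

/-- the determinant of two vectors -/
def dt (s η : ℤ × ℤ) : ℤ := s.1 * η.2 - s.2 * η.1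

open Classical in
theorem line_count (s : ℤ × ℤ) (hs : s ≠ 0) (H : ℕ) :
    ((box H).filter (fun η => dt s η = 0)).card ≤ 2 * H + 1 := by
  have hc : (Icc (-(H : ℤ)) H).card = 2 * H + 1 := by
    rw [Int.card_Icc]
    omega
  rw [← hc]
  by_cases h1 : s.1 = 0
  · have h2 : s.2 ≠ 0 := by
      intro h2
      exact hs (Prod.ext h1 h2)
    refine card_le_card_of_injOn (fun η => η.2) ?_ ?_
    · intro η hη
      rw [mem_coe, mem_filter, box, mem_product] at hη
      exact hη.1.2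
    · intro η hη η' hη' he
      rw [mem_coe, mem_filter] at hη hη'
      have e1 := hη.2
      have e2 := hη'.2
      unfold dt at e1 e2
      rw [h1] at e1 e2
      have e3 : η.1 = 0 := by
        have : s.2 * η.1 = 0 := by linarith
        exact (mul_eq_zero.1 this).resolve_left h2
      have e4 : η'.1 = 0 := by
        have : s.2 * η'.1 = 0 := by linarith
        exact (mul_eq_zero.1 this).resolve_left h2
      exact Prod.ext (e3.trans e4.symm) he
  · refine card_le_card_of_injOn (fun η => η.1) ?_ ?_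
    · intro η hη
      rw [mem_coe, mem_filter, box, mem_product] at hη
      exact hη.1.1
    · intro η hη η' hη' he
      rw [mem_coe, mem_filter] at hη hη'
      have e1 := hη.2
      have e2 := hη'.2
      unfold dt at e1 e2
      simp only at he
      have e3 : s.1 * η.2 = s.1 * η'.2 := by rw [he] at e1; linarith
      exact Prod.ext he (mul_left_cancel₀ h1 e3)

/-- many pairwise independent vectors, or few lines -/
theorem dicho (S : Set (ℤ × ℤ)) (m : ℕ) :
    (∃ T : Finset (ℤ × ℤ), T.card = m ∧ (∀ s ∈ T, s ∈ S) ∧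
      ∀ s ∈ T, ∀ s' ∈ T, s ≠ s' → dt s s' ≠ 0) ∨
    (∃ T : Finset (ℤ × ℤ), T.card < m ∧ (∀ s ∈ T, s ∈ S) ∧ ∀ η ∈ S, ∃ s ∈ T, dt s η = 0) := by
  classical
  induction m with
  | zero =>
    left
    exact ⟨∅, rfl, by simp, by simp⟩
  | succ m ih =>
    rcases ih with ⟨T, hT, hTS, hp⟩ | ⟨T, hT, hTS, hc⟩
    · by_cases hh : ∀ η ∈ S, ∃ s ∈ T, dt s η = 0
      · right
        exact ⟨T, by omega, hTS, hh⟩
      · left
        push Not at hh
        obtain ⟨η, hη, hn⟩ := hh
        have hηT : η ∉ T := by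
          intro h
          apply hn η h
          unfold dt
          ring
        refine ⟨insert η T, by rw [card_insert_of_notMem hηT, hT], ?_, ?_⟩
        · intro s hs
          rcases mem_insert.1 hs with rfl | hs
          · exact hη
          · exact hTS s hs
        · intro s hs s' hs' hne
          rcases mem_insert.1 hs with h1 | h1
          · rcases mem_insert.1 hs' with h2 | h2
            · exact absurd (h1.trans h2.symm) hne
            · have := hn s' h2
              intro h0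
              apply this
              rw [h1] at h0
              unfold dt at h0 ⊢
              linarith
          · rcases mem_insert.1 hs' with h2 | h2
            · rw [h2]
              exact hn s h1
            · exact hp s h1 s' h2 hne
    · right
      exact ⟨T, by omega, hTS, hc⟩

/-- the second moment -/
theorem second_moment {h : ℕ → ℤ} (hz : MZ h) (hb : ∀ n, |h n| ≤ 1)
    (T : Finset (ℤ × ℤ)) (τ : ℤ × ℤ → ℤ × ℤ) (c : ℤ × ℤ → ℤ) (hc : ∀ s ∈ T, c s = 1 ∨ c s = -1)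
    (hd : ∀ s ∈ T, ∀ s' ∈ T, s ≠ s' → dt (τ s) (τ s') ≠ 0) {δ : ℝ} (hδ : 0 < δ) :
    ∃ H₀ : ℕ, ∀ H : ℕ, H₀ ≤ H →
      ∑ η ∈ box H, (((∑ s ∈ T, c s * hp h (dt (τ s) η)) ^ 2 +
        (∑ s ∈ T, c s * hp h (-dt (τ s) η)) ^ 2 : ℤ) : ℝ) ≤
      ((T.card : ℝ) + 2 * (T.card : ℝ) ^ 2 * δ) * (2 * (H : ℝ) + 1) ^ 2 := by
  classical
  have h1 : ∀ s s' : ℤ × ℤ, ∃ H₀ : ℕ, s ∈ T → s' ∈ T → s ≠ s' → ∀ H : ℕ, H₀ ≤ H →
      |∑ η ∈ box H, ((hp h (dt (τ s) η) * hp h (dt (τ s') η) : ℤ) : ℝ)| ≤ δ * (2 * H + 1) ^ 2 ∧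
      |∑ η ∈ box H, ((hp h (-dt (τ s) η) * hp h (-dt (τ s') η) : ℤ) : ℝ)| ≤ δ * (2 * H + 1) ^ 2 := by
    intro s s'
    by_cases hh : s ∈ T ∧ s' ∈ T ∧ s ≠ s'
    · have hne := hd s hh.1 s' hh.2.1 hh.2.2
      obtain ⟨A, hA⟩ := quad_bound hz hb (τ s).1 (τ s).2 (τ s').1 (τ s').2 hne hδ
      obtain ⟨B, hB⟩ := quad_bound hz hb (-(τ s).1) (-(τ s).2) (-(τ s').1) (-(τ s').2)
        (by
          have : -(τ s).1 * -(τ s').2 - -(τ s).2 * -(τ s').1 = dt (τ s) (τ s') := by
            unfold dt; ring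
          rw [this]; exact hne) hδ
      refine ⟨max A B, fun _ _ _ H hH => ⟨?_, ?_⟩⟩
      · exact hA H ((le_max_left _ _).trans hH)
      · have := hB H ((le_max_right _ _).trans hH)
        refine le_trans (le_of_eq ?_) this
        congr 1
        apply sum_congr rfl
        intro η _
        have e1 : -dt (τ s) η = -(τ s).1 * η.2 - -(τ s).2 * η.1 := by unfold dt; ring
        have e2 : -dt (τ s') η = -(τ s').1 * η.2 - -(τ s').2 * η.1 := by unfold dt; ring
        rw [e1, e2]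
    · refine ⟨0, fun a b c => absurd ⟨a, b, c⟩ hh⟩
  choose f hf using h1
  refine ⟨(T ×ˢ T).sup (fun w => f w.1 w.2), fun H hH => ?_⟩
  have hB0 : (0 : ℝ) ≤ (2 * (H : ℝ) + 1) ^ 2 := by positivity
  have hpair : ∀ s ∈ T, ∀ s' ∈ T,
      ∑ η ∈ box H, ((c s * hp h (dt (τ s) η) * (c s' * hp h (dt (τ s') η)) +
        c s * hp h (-dt (τ s) η) * (c s' * hp h (-dt (τ s') η)) : ℤ) : ℝ) ≤
      (if s = s' then (2 * (H : ℝ) + 1) ^ 2 else 0) + 2 * δ * (2 * (H : ℝ) + 1) ^ 2 := by
    intro s hs s' hs'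
    by_cases he : s = s'
    · subst he
      rw [if_pos rfl]
      have h2 : ∀ η ∈ box H, ((c s * hp h (dt (τ s) η) * (c s * hp h (dt (τ s) η)) +
        c s * hp h (-dt (τ s) η) * (c s * hp h (-dt (τ s) η)) : ℤ) : ℝ) ≤ 1 := by
        intro η _
        have hc2 : c s * c s = 1 := by rcases hc s hs with h' | h' <;> rw [h'] <;> norm_num
        have e : c s * hp h (dt (τ s) η) * (c s * hp h (dt (τ s) η)) +
            c s * hp h (-dt (τ s) η) * (c s * hp h (-dt (τ s) η)) =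
            (c s * c s) * (hp h (dt (τ s) η) ^ 2 + hp h (-dt (τ s) η) ^ 2) := by ring
        rw [e, hc2, one_mul]
        have sq1 : ∀ n, h n ^ 2 ≤ 1 := by
          intro n
          have := hb n
          rw [abs_le] at this
          nlinarith
        have : hp h (dt (τ s) η) ^ 2 + hp h (-dt (τ s) η) ^ 2 ≤ 1 := by
          unfold hp
          by_cases h0 : 0 < dt (τ s) η
          · rw [if_pos h0, if_neg (by omega)]
            have := sq1 (dt (τ s) η).toNat
            linarith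
          · rw [if_neg h0]
            split_ifs
            · have := sq1 (-dt (τ s) η).toNat
              linarith
            · norm_num
        exact_mod_cast this
      have h3 := sum_le_sum h2
      rw [sum_const, nsmul_eq_mul, mul_one, card_box] at h3
      have : 0 ≤ 2 * δ * (2 * (H : ℝ) + 1) ^ 2 := by positivity
      linarith
    · rw [if_neg he, zero_add]
      have hH' : f s s' ≤ H := by
        refine le_trans ?_ hH
        exact le_sup (f := fun w : (ℤ × ℤ) × (ℤ × ℤ) => f w.1 w.2) (mem_product.2 ⟨hs, hs'⟩ : (s, s') ∈ T ×ˢ T)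
      obtain ⟨a1, a2⟩ := hf s s' hs hs' he H hH'
      have hcc : |((c s * c s' : ℤ) : ℝ)| ≤ 1 := by
        rcases hc s hs with h' | h' <;> rcases hc s' hs' with h'' | h'' <;> rw [h', h''] <;> norm_num
      have e : ∑ η ∈ box H, ((c s * hp h (dt (τ s) η) * (c s' * hp h (dt (τ s') η)) +
        c s * hp h (-dt (τ s) η) * (c s' * hp h (-dt (τ s') η)) : ℤ) : ℝ) =
        ((c s * c s' : ℤ) : ℝ) * (∑ η ∈ box H, ((hp h (dt (τ s) η) * hp h (dt (τ s') η) : ℤ) : ℝ) +
          ∑ η ∈ box H, ((hp h (-dt (τ s) η) * hp h (-dt (τ s') η) : ℤ) : ℝ)) := by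
        rw [← sum_add_distrib, mul_sum]
        apply sum_congr rfl
        intro η _
        push_cast
        ring
      rw [e]
      refine (le_abs_self _).trans ?_
      rw [abs_mul]
      have h3 := (abs_add_le (∑ η ∈ box H, ((hp h (dt (τ s) η) * hp h (dt (τ s') η) : ℤ) : ℝ))
          (∑ η ∈ box H, ((hp h (-dt (τ s) η) * hp h (-dt (τ s') η) : ℤ) : ℝ)))
      calc _ ≤ 1 * (δ * (2 * (H : ℝ) + 1) ^ 2 + δ * (2 * (H : ℝ) + 1) ^ 2) := by
            apply mul_le_mul hcc (h3.trans (add_le_add a1 a2)) (abs_nonneg _) (by norm_num)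
        _ = 2 * δ * (2 * (H : ℝ) + 1) ^ 2 := by ring
  have e0 : ∑ η ∈ box H, (((∑ s ∈ T, c s * hp h (dt (τ s) η)) ^ 2 +
        (∑ s ∈ T, c s * hp h (-dt (τ s) η)) ^ 2 : ℤ) : ℝ) =
      ∑ s ∈ T, ∑ s' ∈ T, ∑ η ∈ box H,
        ((c s * hp h (dt (τ s) η) * (c s' * hp h (dt (τ s') η)) +
        c s * hp h (-dt (τ s) η) * (c s' * hp h (-dt (τ s') η)) : ℤ) : ℝ) := by
    have : ∀ η ∈ box H, (((∑ s ∈ T, c s * hp h (dt (τ s) η)) ^ 2 +
        (∑ s ∈ T, c s * hp h (-dt (τ s) η)) ^ 2 : ℤ) : ℝ) =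
        ∑ s ∈ T, ∑ s' ∈ T, ((c s * hp h (dt (τ s) η) * (c s' * hp h (dt (τ s') η)) +
        c s * hp h (-dt (τ s) η) * (c s' * hp h (-dt (τ s') η)) : ℤ) : ℝ) := by
      intro η _
      rw [sq, sq, sum_mul_sum, sum_mul_sum, ← sum_add_distrib]
      push_cast
      apply sum_congr rfl
      intro s _
      rw [← sum_add_distrib]
    rw [sum_congr rfl this, sum_comm]
    apply sum_congr rfl
    intro s _
    rw [sum_comm]
  rw [e0]
  have h4 : ∀ s ∈ T, ∑ s' ∈ T, ∑ η ∈ box H,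
        ((c s * hp h (dt (τ s) η) * (c s' * hp h (dt (τ s') η)) +
        c s * hp h (-dt (τ s) η) * (c s' * hp h (-dt (τ s') η)) : ℤ) : ℝ) ≤
        (2 * (H : ℝ) + 1) ^ 2 + T.card * (2 * δ * (2 * (H : ℝ) + 1) ^ 2) := by
    intro s hs
    refine (sum_le_sum (fun s' hs' => hpair s hs s' hs')).trans (le_of_eq ?_)
    rw [sum_add_distrib, sum_ite_eq, if_pos hs, sum_const, nsmul_eq_mul]
  refine (sum_le_sum h4).trans (le_of_eq ?_)
  rw [sum_const, nsmul_eq_mul]
  ring

open Classical in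
/-- the main density statement -/
theorem dz_main {h : ℕ → ℤ} (hz : MZ h) (hb : ∀ n, |h n| ≤ 1)
    (hs : ∀ n, 0 < n → h n = 1 ∨ h n = -1) (S : Set (ℤ × ℤ)) (Lp Lm : ℤ × ℤ → ℤ)
    (hS0 : ∀ s ∈ S, s ≠ 0)
    (hS : ∀ s ∈ S, ∃ t : ℤ × ℤ, (t = s ∨ t = -s) ∧ ∃ c : ℤ, (c = 1 ∨ c = -1) ∧ ∀ η ∈ S,
      (0 < dt t η → Lp η = c * h (dt t η).toNat) ∧
      (dt t η < 0 → Lm η = c * h (-dt t η).toNat)) : DZ S := by
  have hS' : ∀ s : ℤ × ℤ, ∃ t : ℤ × ℤ, ∃ c : ℤ, s ∈ S → ((t = s ∨ t = -s) ∧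
      (c = 1 ∨ c = -1) ∧ ∀ η ∈ S,
      (0 < dt t η → Lp η = c * h (dt t η).toNat) ∧
      (dt t η < 0 → Lm η = c * h (-dt t η).toNat)) := by
    intro s
    by_cases hsS : s ∈ S
    · obtain ⟨t, h1, c, h2, h3⟩ := hS s hsS
      exact ⟨t, c, fun _ => ⟨h1, h2, h3⟩⟩
    · exact ⟨0, 0, fun h' => absurd h' hsS⟩
  choose τ c hτ using hS'
  intro ε hε
  obtain ⟨m, hm⟩ := exists_nat_gt (8 / ε)
  have hm0 : (0 : ℝ) < m := lt_trans (by positivity) hm
  have hm1 : 8 < ε * m := by
    rw [div_lt_iff₀ hε] at hm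
    linarith
  obtain ⟨K, hK⟩ := exists_nat_gt (2 * m / ε)
  have hK1 : 2 * (m : ℝ) < ε * K := by
    rw [div_lt_iff₀ hε] at hK
    linarith
  have hlines : ∀ (T : Finset (ℤ × ℤ)), T.card ≤ m → (∀ s ∈ T, s ≠ 0) → ∀ H : ℕ, K ≤ H →
      (((box H).filter (fun η => ∃ s ∈ T, dt s η = 0)).card : ℝ) ≤ ε / 2 * (2 * H + 1) ^ 2 := by
    intro T hT hT0 H hH
    have h1 : ((box H).filter (fun η => ∃ s ∈ T, dt s η = 0)) ⊆
        T.biUnion (fun s => (box H).filter (fun η => dt s η = 0)) := by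
      intro η hη
      rw [mem_filter] at hη
      obtain ⟨hη1, s, hs1, hs2⟩ := hη
      rw [mem_biUnion]
      exact ⟨s, hs1, mem_filter.2 ⟨hη1, hs2⟩⟩
    have h2 := (card_le_card h1).trans card_biUnion_le
    have h3 : ∑ s ∈ T, ((box H).filter (fun η => dt s η = 0)).card ≤ T.card * (2 * H + 1) := by
      rw [← smul_eq_mul, ← sum_const]
      exact sum_le_sum (fun s hs' => line_count s (hT0 s hs') H)
    have h4 : (((box H).filter (fun η => ∃ s ∈ T, dt s η = 0)).card : ℝ) ≤ m * (2 * H + 1) := by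
      have : ((box H).filter (fun η => ∃ s ∈ T, dt s η = 0)).card ≤ m * (2 * H + 1) :=
        (h2.trans h3).trans (Nat.mul_le_mul_right _ hT)
      exact_mod_cast this
    have h5 : (K : ℝ) ≤ H := by exact_mod_cast hH
    have h6 : 2 * (m : ℝ) ≤ ε * (2 * H + 1) := by nlinarith
    have h7 : (0 : ℝ) ≤ 2 * H + 1 := by positivity
    nlinarith
  rcases dicho S m with ⟨T, hT, hTS, hpr⟩ | ⟨T, hT, hTS, hcov⟩
  swap
  · refine ⟨K, fun H hH => ?_⟩
    have h1 := hlines T hT.le (fun s hs' => hS0 s (hTS s hs')) H hH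
    have h2 : ((box H).filter (fun η => η ∈ S)) ⊆ ((box H).filter (fun η => ∃ s ∈ T, dt s η = 0)) := by
      intro η hη
      rw [mem_filter] at hη ⊢
      exact ⟨hη.1, hcov η hη.2⟩
    have h3 : (((box H).filter (fun η => η ∈ S)).card : ℝ) ≤
        (((box H).filter (fun η => ∃ s ∈ T, dt s η = 0)).card : ℝ) := by
      exact_mod_cast card_le_card h2
    have h4 : 0 ≤ ε * (2 * (H : ℝ) + 1) ^ 2 := by positivity
    linarith
  · have hcT : ∀ s ∈ T, c s = 1 ∨ c s = -1 := fun s hs' => (hτ s (hTS s hs')).2.1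
    have hdT : ∀ s ∈ T, ∀ s' ∈ T, s ≠ s' → dt (τ s) (τ s') ≠ 0 := by
      intro s hs1 s' hs2 hne
      have h0 := hpr s hs1 s' hs2 hne
      have e1 := (hτ s (hTS s hs1)).1
      have e2 := (hτ s' (hTS s' hs2)).1
      have g1 : ∀ a b : ℤ × ℤ, dt (-a) b = -dt a b := by
        intro a b; unfold dt; simp only [Prod.fst_neg, Prod.snd_neg]; ring
      have g2 : ∀ a b : ℤ × ℤ, dt a (-b) = -dt a b := by
        intro a b; unfold dt; simp only [Prod.fst_neg, Prod.snd_neg]; ring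
      rcases e1 with e1 | e1 <;> rcases e2 with e2 | e2 <;> rw [e1, e2] <;>
        simp only [g1, g2, neg_neg, ne_eq, neg_eq_zero] <;> exact h0
    obtain ⟨H₁, hH₁⟩ := second_moment hz hb T τ c hcT hdT (δ := ε / 32) (by positivity)
    refine ⟨max K H₁, fun H hH => ?_⟩
    have h1 := hlines (T.image τ) (card_image_le.trans hT.le) (by
      intro s hs'
      rw [mem_image] at hs'
      obtain ⟨a, ha, rfl⟩ := hs'
      have ha0 := hS0 a (hTS a ha)
      rcases (hτ a (hTS a ha)).1 with e | e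
      · rw [e]; exact ha0
      · rw [e]; exact neg_ne_zero.2 ha0) H ((le_max_left _ _).trans hH)
    have h2 := hH₁ H ((le_max_right _ _).trans hH)
    set G := (box H).filter (fun η => η ∈ S ∧ ∀ s ∈ T, dt (τ s) η ≠ 0) with hG
    have hlow : ∀ η ∈ G, (m : ℝ) ^ 2 / 2 ≤ (((∑ s ∈ T, c s * hp h (dt (τ s) η)) ^ 2 +
        (∑ s ∈ T, c s * hp h (-dt (τ s) η)) ^ 2 : ℤ) : ℝ) := by
      intro η hη
      rw [hG, mem_filter] at hη
      obtain ⟨_, hηS, hne⟩ := hη
      set P := T.filter (fun s => 0 < dt (τ s) η) with hP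
      set N := T.filter (fun s => ¬ 0 < dt (τ s) η) with hN
      have hPN : P.card + N.card = m := by
        rw [hP, hN, ← hT]
        exact card_filter_add_card_filter_not _
      have eP : (∑ s ∈ T, c s * hp h (dt (τ s) η)) ^ 2 = (P.card : ℤ) ^ 2 := by
        have e1 : ∑ s ∈ T, c s * hp h (dt (τ s) η) = P.card * Lp η := by
          have : ∀ s ∈ T, c s * hp h (dt (τ s) η) = if 0 < dt (τ s) η then Lp η else 0 := by
            intro s hs'
            unfold hp
            by_cases h0 : 0 < dt (τ s) η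
            · rw [if_pos h0, if_pos h0]
              exact (((hτ s (hTS s hs')).2.2 η hηS).1 h0).symm
            · rw [if_neg h0, if_neg h0, mul_zero]
          rw [sum_congr rfl this, ← sum_filter, sum_const, nsmul_eq_mul]
        rw [e1]
        rcases P.eq_empty_or_nonempty with h0 | ⟨s, hs'⟩
        · rw [h0]; simp
        · rw [hP, mem_filter] at hs'
          have e2 := ((hτ s (hTS s hs'.1)).2.2 η hηS).1 hs'.2
          have e3 := hcT s hs'.1
          have e4 := hs (dt (τ s) η).toNat (by omega)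
          have e5 : Lp η ^ 2 = 1 := by
            rw [e2]
            rcases e3 with e | e <;> rcases e4 with e' | e' <;> rw [e, e'] <;> norm_num
          rw [mul_pow, e5, mul_one]
      have eN : (∑ s ∈ T, c s * hp h (-dt (τ s) η)) ^ 2 = (N.card : ℤ) ^ 2 := by
        have e1 : ∑ s ∈ T, c s * hp h (-dt (τ s) η) = N.card * Lm η := by
          have : ∀ s ∈ T, c s * hp h (-dt (τ s) η) = if ¬ 0 < dt (τ s) η then Lm η else 0 := by
            intro s hs'
            unfold hp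
            have hne' := hne s hs'
            by_cases h0 : 0 < dt (τ s) η
            · rw [if_neg (by omega), if_neg (by omega), mul_zero]
            · rw [if_pos (by omega), if_pos h0]
              exact (((hτ s (hTS s hs')).2.2 η hηS).2 (by omega)).symm
          rw [sum_congr rfl this, ← sum_filter, sum_const, nsmul_eq_mul]
        rw [e1]
        rcases N.eq_empty_or_nonempty with h0 | ⟨s, hs'⟩
        · rw [h0]; simp
        · rw [hN, mem_filter] at hs'
          have hne' := hne s hs'.1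
          have e2 := ((hτ s (hTS s hs'.1)).2.2 η hηS).2 (by omega)
          have e3 := hcT s hs'.1
          have e4 := hs (-dt (τ s) η).toNat (by omega)
          have e5 : Lm η ^ 2 = 1 := by
            rw [e2]
            rcases e3 with e | e <;> rcases e4 with e' | e' <;> rw [e, e'] <;> norm_num
          rw [mul_pow, e5, mul_one]
      rw [eP, eN]
      have : (m : ℝ) = P.card + N.card := by exact_mod_cast hPN.symm
      rw [this]
      push_cast
      nlinarith [sq_nonneg ((P.card : ℝ) - N.card)]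
    have h3 : (m : ℝ) ^ 2 / 2 * G.card ≤ ((m : ℝ) + 2 * (m : ℝ) ^ 2 * (ε / 32)) * (2 * (H : ℝ) + 1) ^ 2 := by
      rw [hT] at h2
      refine le_trans ?_ h2
      have h4 := sum_le_sum hlow
      rw [sum_const, nsmul_eq_mul] at h4
      have h5 : ∑ η ∈ G, (((∑ s ∈ T, c s * hp h (dt (τ s) η)) ^ 2 +
          (∑ s ∈ T, c s * hp h (-dt (τ s) η)) ^ 2 : ℤ) : ℝ) ≤
          ∑ η ∈ box H, (((∑ s ∈ T, c s * hp h (dt (τ s) η)) ^ 2 +
          (∑ s ∈ T, c s * hp h (-dt (τ s) η)) ^ 2 : ℤ) : ℝ) := by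
        apply sum_le_sum_of_subset_of_nonneg (filter_subset _ _)
        intro η _ _
        have : (0 : ℤ) ≤ (∑ s ∈ T, c s * hp h (dt (τ s) η)) ^ 2 +
          (∑ s ∈ T, c s * hp h (-dt (τ s) η)) ^ 2 := by positivity
        exact_mod_cast this
      linarith
    have h6 : (G.card : ℝ) ≤ ε / 2 * (2 * (H : ℝ) + 1) ^ 2 := by
      have hB : (0 : ℝ) ≤ (2 * (H : ℝ) + 1) ^ 2 := by positivity
      have h7 : (m : ℝ) + 2 * (m : ℝ) ^ 2 * (ε / 32) ≤ (m : ℝ) ^ 2 / 2 * (ε / 2) := by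
        nlinarith [mul_lt_mul_of_pos_left hm1 hm0]
      have h8 : (m : ℝ) ^ 2 / 2 * G.card ≤ (m : ℝ) ^ 2 / 2 * (ε / 2 * (2 * (H : ℝ) + 1) ^ 2) := by
        calc _ ≤ _ := h3
          _ ≤ (m : ℝ) ^ 2 / 2 * (ε / 2) * (2 * (H : ℝ) + 1) ^ 2 := mul_le_mul_of_nonneg_right h7 hB
          _ = _ := by ring
      exact le_of_mul_le_mul_left h8 (by positivity)
    have h9 : ((box H).filter (fun η => η ∈ S)) ⊆ G ∪ ((box H).filter (fun η => ∃ s ∈ T.image τ, dt s η = 0)) := by
      intro η hη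
      rw [mem_filter] at hη
      rw [mem_union]
      by_cases h0 : ∀ s ∈ T, dt (τ s) η ≠ 0
      · left
        exact mem_filter.2 ⟨hη.1, hη.2, h0⟩
      · right
        push Not at h0
        obtain ⟨s, hs1, hs2⟩ := h0
        exact mem_filter.2 ⟨hη.1, τ s, mem_image_of_mem _ hs1, hs2⟩
    have h10 : (((box H).filter (fun η => η ∈ S)).card : ℝ) ≤
        G.card + (((box H).filter (fun η => ∃ s ∈ T.image τ, dt s η = 0)).card : ℝ) := by
      exact_mod_cast (card_le_card h9).trans (card_union_le _ _)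
    linarith

end Pool.Agent.T2H52.CF
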