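import Pool.Agent.T2H52.CF.NF

set_option autoImplicit false

/-! # Cyclic cubic fields, and lines avoiding a finite set -/

namespace Pool.Agent.T2H52.CF

open Finset Filter NumberField

variable {K : Type*} [Field K] [NumberField K]

theorem exists_conj (hK : Module.finrank ℚ K = 3) [IsGalois ℚ K] {x : K}
    (hx : ∀ q : ℚ, x ≠ (q : K)) : ∃ (τ : K ≃ₐ[ℚ] K) (q0 q1 q2 : ℚ), 0 < q2 ∧
      τ x = (q0 : K) + (q1 : K) * x + (q2 : K) * x ^ 2 := by
  have hcard : Nat.card (K ≃ₐ[ℚ] K) = 3 := by rw [IsGalois.card_aut_eq_finrank, hK]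
  have : Fact (Nat.Prime 3) := ⟨Nat.prime_three⟩
  have : Nontrivial (K ≃ₐ[ℚ] K) := by
    have : Finite (K ≃ₐ[ℚ] K) := Nat.finite_of_card_ne_zero (by rw [hcard]; norm_num)
    exact Finite.one_lt_card_iff_nontrivial.1 (by rw [hcard]; norm_num)
  obtain ⟨σ, hσ⟩ := exists_ne (1 : K ≃ₐ[ℚ] K)
  have hσ3 : ∀ y, σ (σ (σ y)) = y := by
    intro y
    have h1 : σ ^ 3 = 1 := by rw [← hcard]; exact pow_card_eq_one'
    have h2 : (σ ^ 3) y = σ (σ (σ y)) := by rw [pow_succ, pow_two]; rfl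
    rw [← h2, h1]; rfl
  have hfix : ∀ y, σ y = y → ∃ q : ℚ, y = (q : K) := by
    intro y hy
    have h1 : y ∈ Set.range (algebraMap ℚ K) := by
      rw [IsGalois.mem_range_algebraMap_iff_fixed]
      intro f
      have h2 : f ∈ Subgroup.zpowers σ := mem_zpowers_of_prime_card hcard hσ
      have h3 : Subgroup.zpowers σ ≤ MulAction.stabilizer (K ≃ₐ[ℚ] K) y := by
        rw [Subgroup.zpowers_le, MulAction.mem_stabilizer_iff]
        exact hy
      exact MulAction.mem_stabilizer_iff.1 (h3 h2)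
    obtain ⟨q, hq⟩ := h1
    exact ⟨q, by rw [← hq]; simp⟩
  have hindep : LinearIndependent ℚ ![(1 : K), x, x ^ 2] := by
    rw [Fintype.linearIndependent_iff]
    intro g hg
    rw [Fin.sum_univ_three] at hg
    simp only [Matrix.cons_val_zero, Matrix.cons_val_one, Matrix.cons_val, Rat.smul_def] at hg
    by_contra hc
    push Not at hc
    obtain ⟨i, hi⟩ := hc
    obtain ⟨q, hq⟩ := rat_of_quad hK (x := x) (a := g 2) (b := g 1) (c := g 0)
      (by linear_combination hg) (by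
        rintro ⟨h2, h1, h0⟩
        apply hi
        fin_cases i
        · exact h0
        · exact h1
        · exact h2)
    exact hx q (by rw [← hq]; simp)
  obtain ⟨q0, q1, q2, hq⟩ := coords hK hindep (σ x)
  obtain ⟨r0, r1, r2, hr⟩ := coords hK hindep (σ (σ x))
  obtain ⟨s, hs⟩ := hfix (x + σ x + σ (σ x)) (by
    rw [map_add, map_add, hσ3]
    ring)
  have h2 := indep_iff hindep (q0 + r0 - s) (1 + q1 + r1) (q2 + r2) (by
    push_cast
    rw [← hs, hr, hq]
    ring)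
  rcases lt_trichotomy q2 0 with h | h | h
  · refine ⟨σ.trans σ, r0, r1, r2, by linarith [h2.2.2], ?_⟩
    rw [AlgEquiv.trans_apply, hr]
    ring
  · exfalso
    rw [h] at hq
    have e1 : σ x = (q0 : K) + (q1 : K) * x := by rw [hq]; push_cast; ring
    have hσq : ∀ q : ℚ, σ (q : K) = (q : K) := fun q => map_ratCast σ q
    have e2 : σ (σ x) = (q0 : K) + (q1 : K) * ((q0 : K) + (q1 : K) * x) := by
      rw [e1, map_add, map_mul, hσq, hσq, e1]
    have e3 : σ (σ (σ x)) = (q0 : K) + (q1 : K) * ((q0 : K) + (q1 : K) * ((q0 : K) + (q1 : K) * x)) := by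
      rw [e2, map_add, map_mul, map_add, map_mul, hσq, hσq, e1]
    rw [hσ3] at e3
    have h3 := indep_iff hindep (q0 + q1 * q0 + q1 ^ 2 * q0) (q1 ^ 3 - 1) 0 (by
      push_cast
      linear_combination -e3)
    have h4 : q1 = 1 := by
      have h5 : (q1 - 1) * (q1 ^ 2 + q1 + 1) = 0 := by linear_combination h3.2.1
      rcases mul_eq_zero.1 h5 with h6 | h6
      · linarith
      · nlinarith [sq_nonneg (2 * q1 + 1)]
    have h5 : q0 = 0 := by
      have := h3.1
      rw [h4] at this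
      linarith
    obtain ⟨q, hq'⟩ := hfix x (by rw [e1, h4, h5]; push_cast; ring)
    exact hx q hq'
  · refine ⟨σ, q0, q1, q2, h, ?_⟩
    rw [hq]
    ring

theorem cyc_lamN (hK : Module.finrank ℚ K = 3) [IsGalois ℚ K] {α β : 𝓞 K}
    (hind : LinearIndependent ℚ ![(1 : K), (α : K), (β : K)]) : Cyc (lamN (K := K)) α β := by
  intro v hv
  obtain ⟨τ, q0, q1, q2, hq2, hτ⟩ := exists_conj hK (vv_not_rat hind hv)
  obtain ⟨ξ', hξ'⟩ : ∃ ξ' : 𝓞 K, (ξ' : K) = τ ((vv α β v : 𝓞 K) : K) :=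
    ⟨RingOfIntegers.mapRingHom (τ : K →+* K) (vv α β v), rfl⟩
  refine ⟨ξ', ?_, ?_⟩
  · intro n e
    unfold lamN
    have h1 : Algebra.norm ℤ ((n : 𝓞 K) - (e : 𝓞 K) * ξ') = Algebra.norm ℤ ((n : 𝓞 K) - (e : 𝓞 K) * vv α β v) := by
      have h2 := Algebra.coe_norm_int ((n : 𝓞 K) - (e : 𝓞 K) * ξ')
      have h3 := Algebra.coe_norm_int ((n : 𝓞 K) - (e : 𝓞 K) * vv α β v)
      have h4 : (((n : 𝓞 K) - (e : 𝓞 K) * ξ' : 𝓞 K) : K) = τ (((n : 𝓞 K) - (e : 𝓞 K) * vv α β v : 𝓞 K) : K) := by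
        have hξ2 : algebraMap (𝓞 K) K ξ' = τ (algebraMap (𝓞 K) K (vv α β v)) := hξ'
        change algebraMap (𝓞 K) K ((n : 𝓞 K) - (e : 𝓞 K) * ξ') =
          τ (algebraMap (𝓞 K) K ((n : 𝓞 K) - (e : 𝓞 K) * vv α β v))
        simp only [map_sub, map_mul, map_intCast, hξ2]
      rw [h4, Algebra.norm_eq_of_algEquiv, ← h3] at h2
      exact_mod_cast h2
    rw [h1]
  · obtain ⟨k, hk, a0, a1, a2, h0, h1, h2⟩ := cd3 q0 q1 q2
    have hkq : (0 : ℚ) < k := by exact_mod_cast hk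
    have ha2 : 0 < a2 := by
      have : (0 : ℚ) < a2 := by rw [← h2]; positivity
      exact_mod_cast this
    obtain ⟨D, hD⟩ := Int.eq_ofNat_of_zero_le ha2.le
    refine ⟨k, D, hk, by omega, a1, a0, ?_⟩
    have g0 : (k : K) * (q0 : K) = (a0 : K) := by exact_mod_cast congrArg (fun z : ℚ => (z : K)) h0
    have g1 : (k : K) * (q1 : K) = (a1 : K) := by exact_mod_cast congrArg (fun z : ℚ => (z : K)) h1
    have g2 : (k : K) * (q2 : K) = (D : K) := by
      have : (k : K) * (q2 : K) = (a2 : K) := by exact_mod_cast congrArg (fun z : ℚ => (z : K)) h2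
      rw [this, hD]
      simp
    have hgoal : (k : K) * (ξ' : K) = (D : K) * ((vv α β v : 𝓞 K) : K) ^ 2 +
        (a1 : K) * ((vv α β v : 𝓞 K) : K) + (a0 : K) := by
      rw [hξ', hτ, ← g0, ← g1, ← g2]
      ring
    apply RingOfIntegers.ext
    simpa using hgoal

/-- the line of an element of `K` -/
theorem line_of (hK : Module.finrank ℚ K = 3) {α β : 𝓞 K}
    (hind : LinearIndependent ℚ ![(1 : K), (α : K), (β : K)]) (φ : K) :
    ∃ f : ℤ × ℤ, f ≠ 0 ∧ ∀ v : ℤ × ℤ, v ≠ 0 → dt f v ≠ 0 → ∀ r s : ℚ,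
      ((vv α β v : 𝓞 K) : K) ≠ (r : K) * φ + (s : K) := by
  obtain ⟨q0, q1, q2, hq⟩ := coords hK hind φ
  obtain ⟨k, hk, a0, a1, a2, h0, h1, h2⟩ := cd3 q0 q1 q2
  have hk0 : (k : ℚ) ≠ 0 := by exact_mod_cast hk.ne'
  by_cases hf : ((a1, a2) : ℤ × ℤ) = 0
  · refine ⟨(1, 0), by simp, fun v hv _ r s h => ?_⟩
    have e1 : a1 = 0 := congrArg Prod.fst hf
    have e2 : a2 = 0 := congrArg Prod.snd hf
    have z1 : q1 = 0 := by
      rw [e1] at h1
      simpa [hk0] using h1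
    have z2 : q2 = 0 := by
      rw [e2] at h2
      simpa [hk0] using h2
    apply vv_not_rat hind hv (r * q0 + s)
    rw [h, hq, z1, z2]
    push_cast
    ring
  · refine ⟨(a1, a2), hf, fun v hv hdt r s h => ?_⟩
    apply hdt
    rw [vv_coe, hq] at h
    have h3 := indep_iff hind (-(r * q0 + s)) ((v.1 : ℚ) - r * q1) ((v.2 : ℚ) - r * q2) (by
      push_cast
      linear_combination h)
    have e1 : (v.1 : ℚ) = r * q1 := by linarith [h3.2.1]
    have e2 : (v.2 : ℚ) = r * q2 := by linarith [h3.2.2]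
    have : ((dt (a1, a2) v : ℤ) : ℚ) = 0 := by
      unfold dt
      push_cast
      rw [← h1, ← h2, e1, e2]
      ring
    exact_mod_cast this

end Pool.Agent.T2H52.CF
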