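import Pool.Agent.T2H52.CF.Abs
import Pool.Agent.H426R3.CL.Lam

set_option autoImplicit false

/-! # Cubic number fields -/

namespace Pool.Agent.T2H52.CF

open Finset Filter NumberField

variable {K : Type*} [Field K] [NumberField K]

/-- Liouville's function at the norm -/
noncomputable def lamN (θ : 𝓞 K) : ℤ :=
  (-1) ^ (ArithmeticFunction.cardFactors (Algebra.norm ℤ θ).natAbs)

theorem lamN_mulH : MulH (lamN (K := K)) := by
  constructor
  · intro a b ha hb
    have h1 : (Algebra.norm ℤ a).natAbs ≠ 0 := Int.natAbs_ne_zero.2 (Algebra.norm_ne_zero_iff.2 ha)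
    have h2 : (Algebra.norm ℤ b).natAbs ≠ 0 := Int.natAbs_ne_zero.2 (Algebra.norm_ne_zero_iff.2 hb)
    unfold lamN
    rw [map_mul, Int.natAbs_mul, ArithmeticFunction.cardFactors_mul h1 h2, pow_add]
  · intro a _
    exact neg_one_pow_eq_or ℤ _

theorem lamN_nat (hK : Module.finrank ℚ K = 3) (n : ℕ) :
    lamN (n : 𝓞 K) = (-1) ^ (ArithmeticFunction.cardFactors n) := by
  have h1 : Algebra.norm ℤ (n : 𝓞 K) = (n : ℤ) ^ 3 := by
    have h2 := Algebra.coe_norm_int (n : 𝓞 K)
    have h3 : ((n : 𝓞 K) : K) = algebraMap ℚ K n := by simp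
    rw [h3, Algebra.norm_algebraMap, hK] at h2
    exact_mod_cast h2
  unfold lamN
  rw [h1, Int.natAbs_pow, Int.natAbs_natCast, ArithmeticFunction.cardFactors_pow, pow_mul]
  norm_num

theorem mz_lamN (hK : Module.finrank ℚ K = 3) : MZ (hN (lamN (K := K))) := by
  intro q a hq ε hε
  by_cases ha : a < q
  · obtain ⟨N₀, hN₀⟩ := Pool.Agent.H426R3.CL.gl_littleO q a hq hε
    refine ⟨N₀, fun N hN' => ?_⟩
    refine le_trans (le_of_eq ?_) (hN₀ N hN')
    congr 1
    apply sum_congr rfl
    intro n hn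
    have hn1 := (mem_Icc.1 hn).1
    unfold Pool.Agent.H426R3.CL.gl hN Pool.Agent.H376R2.MR.lam
    rw [Nat.mod_eq_of_lt ha, if_neg (by omega : ¬ n = 0), lamN_nat hK]
  · refine ⟨0, fun N _ => ?_⟩
    have : ∑ n ∈ Icc 1 N, ((if n % q = a then hN (lamN (K := K)) n else 0 : ℤ) : ℝ) = 0 := by
      apply sum_eq_zero
      intro n _
      rw [if_neg]
      · simp
      · have := Nat.mod_lt n hq
        omega
    rw [this, abs_zero]
    positivity

/-- clearing denominators -/
theorem cd3 (q0 q1 q2 : ℚ) : ∃ k : ℕ, 0 < k ∧ ∃ a0 a1 a2 : ℤ,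
    (k : ℚ) * q0 = a0 ∧ (k : ℚ) * q1 = a1 ∧ (k : ℚ) * q2 = a2 := by
  refine ⟨q0.den * q1.den * q2.den, by
    have := q0.pos; have := q1.pos; have := q2.pos; positivity,
    q0.num * q1.den * q2.den, q1.num * q0.den * q2.den, q2.num * q0.den * q1.den, ?_, ?_, ?_⟩
  · have h : q0 * q0.den = q0.num := Rat.mul_den_eq_num q0
    push_cast
    rw [← h]; ring
  · have h : q1 * q1.den = q1.num := Rat.mul_den_eq_num q1
    push_cast
    rw [← h]; ring
  · have h : q2 * q2.den = q2.num := Rat.mul_den_eq_num q2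
    push_cast
    rw [← h]; ring

theorem coords (hK : Module.finrank ℚ K = 3) {u v w : K} (h : LinearIndependent ℚ ![u, v, w])
    (x : K) : ∃ q0 q1 q2 : ℚ, x = (q0 : K) * u + (q1 : K) * v + (q2 : K) * w := by
  set b := basisOfLinearIndependentOfCardEqFinrank h (by rw [hK]; rfl) with hb
  refine ⟨b.repr x 0, b.repr x 1, b.repr x 2, ?_⟩
  have h1 := b.sum_repr x
  rw [Fin.sum_univ_three] at h1
  have e0 : b 0 = u := by rw [hb]; simp
  have e1 : b 1 = v := by rw [hb]; simp
  have e2 : b 2 = w := by rw [hb]; simp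
  rw [e0, e1, e2, Rat.smul_def, Rat.smul_def, Rat.smul_def] at h1
  exact h1.symm

theorem indep_iff {u v w : K} (h : LinearIndependent ℚ ![u, v, w]) (a b c : ℚ)
    (h0 : (a : K) * u + (b : K) * v + (c : K) * w = 0) : a = 0 ∧ b = 0 ∧ c = 0 := by
  rw [Fintype.linearIndependent_iff] at h
  have h1 := h ![a, b, c] (by
    rw [Fin.sum_univ_three]
    simp only [Matrix.cons_val_zero, Matrix.cons_val_one, Matrix.cons_val, Rat.smul_def]
    exact h0)
  exact ⟨h1 0, h1 1, h1 2⟩

/-- a quadratic relation over `ℚ` forces rationality in a cubic field -/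
theorem rat_of_quad (hK : Module.finrank ℚ K = 3) {x : K} {a b c : ℚ}
    (h : (a : K) * x ^ 2 + (b : K) * x + (c : K) = 0) (hne : ¬ (a = 0 ∧ b = 0 ∧ c = 0)) :
    x ∈ (algebraMap ℚ K).range := by
  rw [← minpoly.natDegree_eq_one_iff]
  have hint : IsIntegral ℚ x := Algebra.IsIntegral.isIntegral x
  have hdvd := minpoly.degree_dvd hint
  rw [hK] at hdvd
  set p : Polynomial ℚ := Polynomial.C a * Polynomial.X ^ 2 + Polynomial.C b * Polynomial.X +
    Polynomial.C c with hp
  have hp0 : p ≠ 0 := by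
    intro h0
    apply hne
    have c0 : p.coeff 0 = 0 := by rw [h0]; simp
    have c1 : p.coeff 1 = 0 := by rw [h0]; simp
    have c2 : p.coeff 2 = 0 := by rw [h0]; simp
    rw [hp] at c0 c1 c2
    simp [Polynomial.coeff_X, Polynomial.coeff_C] at c0 c1 c2
    exact ⟨c2, c1, c0⟩
  have hpx : Polynomial.aeval x p = 0 := by
    rw [hp]
    simp only [map_add, map_mul, Polynomial.aeval_C, Polynomial.aeval_X, map_pow]
    simpa using h
  have hdeg := minpoly.degree_le_of_ne_zero ℚ x hp0 hpx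
  have hdeg2 : p.degree ≤ 2 := by
    rw [hp]
    exact Polynomial.degree_quadratic_le
  have h3 : (minpoly ℚ x).natDegree ≤ 2 :=
    Polynomial.natDegree_le_of_degree_le (hdeg.trans hdeg2)
  rcases (Nat.dvd_prime Nat.prime_three).1 hdvd with h4 | h4
  · exact h4
  · omega

theorem vv_coe (α β : 𝓞 K) (v : ℤ × ℤ) :
    ((vv α β v : 𝓞 K) : K) = (v.1 : K) * (α : K) + (v.2 : K) * (β : K) := by
  unfold vv
  push_cast
  rfl

theorem vv_not_rat {α β : 𝓞 K} (hind : LinearIndependent ℚ ![(1 : K), (α : K), (β : K)])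
    {v : ℤ × ℤ} (hv : v ≠ 0) (q : ℚ) : ((vv α β v : 𝓞 K) : K) ≠ (q : K) := by
  intro h
  rw [vv_coe] at h
  have h1 := indep_iff hind (-q) (v.1 : ℚ) (v.2 : ℚ) (by
    push_cast
    linear_combination h)
  apply hv
  exact Prod.ext (by exact_mod_cast h1.2.1) (by exact_mod_cast h1.2.2)

theorem cub (hK : Module.finrank ℚ K = 3) {α β : 𝓞 K}
    (hind : LinearIndependent ℚ ![(1 : K), (α : K), (β : K)]) : Cub α β := by
  constructor
  · intro v hv n e he h0
    have h1 : (n : K) - (e : K) * ((vv α β v : 𝓞 K) : K) = 0 := by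
      have := congrArg (fun z : 𝓞 K => (z : K)) h0
      push_cast at this
      simpa using this
    apply vv_not_rat hind hv ((n : ℚ) / (e : ℚ))
    have he' : (e : K) ≠ 0 := by exact_mod_cast he
    push_cast
    field_simp
    linear_combination -h1
  · intro v hv
    obtain ⟨q0, q1, q2, hq⟩ := coords hK hind (((vv α β v : 𝓞 K) : K) ^ 2)
    obtain ⟨k, hk, a0, a1, a2, h0, h1, h2⟩ := cd3 q0 q1 q2
    have g0 : (k : K) * (q0 : K) = (a0 : K) := by exact_mod_cast congrArg (fun z : ℚ => (z : K)) h0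
    have g1 : (k : K) * (q1 : K) = (a1 : K) := by exact_mod_cast congrArg (fun z : ℚ => (z : K)) h1
    have g2 : (k : K) * (q2 : K) = (a2 : K) := by exact_mod_cast congrArg (fun z : ℚ => (z : K)) h2
    have hrel : (k : K) * ((vv α β v : 𝓞 K) : K) ^ 2 = (a0 : K) + ((vv α β (a1, a2) : 𝓞 K) : K) := by
      rw [hq, vv_coe]
      simp only
      rw [← g0, ← g1, ← g2]
      ring
    refine ⟨k, hk, a0, (a1, a2), ?_, ?_⟩
    · apply RingOfIntegers.ext
      push_cast
      exact hrel
    · intro hdt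
      -- `a` is proportional to `v`
      unfold dt at hdt
      simp only at hdt
      have hk0 : (k : ℚ) ≠ 0 := by exact_mod_cast hk.ne'
      have key : ∃ c : ℚ, (a1 : ℚ) = c * v.1 ∧ (a2 : ℚ) = c * v.2 := by
        have hdtq : (v.1 : ℚ) * a2 - (v.2 : ℚ) * a1 = 0 := by exact_mod_cast hdt
        by_cases hv1 : v.1 = 0
        · have hv2 : v.2 ≠ 0 := fun h => hv (Prod.ext hv1 h)
          have hv2' : (v.2 : ℚ) ≠ 0 := by exact_mod_cast hv2
          refine ⟨a2 / v.2, ?_, ?_⟩
          · rw [hv1] at hdtq ⊢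
            have : (v.2 : ℚ) * a1 = 0 := by push_cast at hdtq; linarith
            rcases mul_eq_zero.1 this with h | h
            · exact absurd h hv2'
            · rw [h]; simp
          · field_simp
        · have hv1' : (v.1 : ℚ) ≠ 0 := by exact_mod_cast hv1
          refine ⟨a1 / v.1, by field_simp, ?_⟩
          field_simp
          linarith
      obtain ⟨c, hc1, hc2⟩ := key
      have hc1' : (a1 : K) = (c : K) * (v.1 : K) := by exact_mod_cast congrArg (fun z : ℚ => (z : K)) hc1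
      have hc2' : (a2 : K) = (c : K) * (v.2 : K) := by exact_mod_cast congrArg (fun z : ℚ => (z : K)) hc2
      have hquad : (((k : ℚ)) : K) * ((vv α β v : 𝓞 K) : K) ^ 2 + ((-c : ℚ) : K) * ((vv α β v : 𝓞 K) : K) +
          ((-(a0 : ℚ) : ℚ) : K) = 0 := by
        push_cast
        rw [hrel, vv_coe, vv_coe]
        simp only
        rw [hc1', hc2']
        ring
      obtain ⟨q, hq'⟩ := rat_of_quad hK hquad (fun h => hk0 h.1)
      exact vv_not_rat hind hv q (by rw [← hq']; simp)

end Pool.Agent.T2H52.CF
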